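import Mathlib

set_option autoImplicit false

namespace Pool.Agent.X152.DS

open Finset

theorem ap_exact (g q' : ℕ) (hg : 0 < g) (hq : 0 < q') (X v : ℤ) :
    #{n ∈ Ico X (X + (g * q' : ℕ)) | n ≡ v [ZMOD (q' : ℤ)]} = g := by
  have hqZ : (0 : ℤ) < q' := by exact_mod_cast hq
  have h := Int.Ico_filter_modEq_card X (X + (g * q' : ℕ)) hqZ v
  have e : (((X + (g * q' : ℕ) : ℤ) : ℚ) - v) / ((q' : ℤ) : ℚ) =
      ((X : ℚ) - v) / ((q' : ℤ) : ℚ) + ((g : ℤ) : ℚ) := by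
    have : (q' : ℚ) ≠ 0 := by exact_mod_cast hq.ne'
    push_cast
    field_simp
    ring
  rw [e, Int.ceil_add_intCast] at h
  have h2 : (max (⌈((X : ℚ) - v) / ((q' : ℤ) : ℚ)⌉ + (g : ℤ) - ⌈((X : ℚ) - v) / ((q' : ℤ) : ℚ)⌉) 0) = (g : ℤ) := by
    rw [add_sub_cancel_left]
    exact max_eq_left (by positivity)
  rw [h2] at h
  exact_mod_cast h

theorem fiber_count (q r : ℕ) (hq : 0 < q) (_hr : 0 < r) (X X' k : ℤ) :
    #{z ∈ Ico X (X + q) ×ˢ Ico X' (X' + r) | z.1 * r - z.2 * q = k} ≤ Nat.gcd q r := by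
  classical
  set g := Nat.gcd q r with hg
  have hgpos : 0 < g := Nat.gcd_pos_of_pos_left _ hq
  obtain ⟨q', hq'⟩ : g ∣ q := Nat.gcd_dvd_left _ _
  obtain ⟨r', hr'⟩ : g ∣ r := Nat.gcd_dvd_right _ _
  have hq'pos : 0 < q' := by
    rcases Nat.eq_zero_or_pos q' with h | h
    · rw [h] at hq'; omega
    · exact h
  have hco : Nat.Coprime q' r' := by
    have : Nat.gcd q r = g * Nat.gcd q' r' := by
      conv_lhs => rw [hq', hr']
      exact Nat.gcd_mul_left _ _ _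
    rw [← hg] at this
    have h1 : g * 1 = g * Nat.gcd q' r' := by rw [mul_one]; exact this
    exact (Nat.eq_of_mul_eq_mul_left hgpos h1).symm
  set S := {z ∈ Ico X (X + q) ×ˢ Ico X' (X' + r) | z.1 * r - z.2 * q = k} with hS
  rcases S.eq_empty_or_nonempty with h | ⟨z0, hz0⟩
  · rw [h]; simp
  have hqZ : (q : ℤ) ≠ 0 := by exact_mod_cast hq.ne'
  have hinj : Set.InjOn (fun z : ℤ × ℤ => z.1) ↑S := by
    intro a ha b hb hab
    rw [mem_coe, hS, mem_filter] at ha hb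
    have h1 : a.1 = b.1 := hab
    have h2 : a.2 * (q : ℤ) = b.2 * q := by
      have := ha.2; have := hb.2
      rw [h1] at ha
      linarith [ha.2, hb.2]
    exact Prod.ext h1 (mul_right_cancel₀ hqZ h2)
  rw [← card_image_of_injOn hinj]
  have hsub : S.image (fun z : ℤ × ℤ => z.1) ⊆
      {n ∈ Ico X (X + (g * q' : ℕ)) | n ≡ z0.1 [ZMOD (q' : ℤ)]} := by
    intro n hn
    rw [mem_image] at hn
    obtain ⟨z, hz, rfl⟩ := hn
    rw [hS, mem_filter, mem_product] at hz hz0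
    rw [mem_filter, ← hq']
    refine ⟨hz.1.1, ?_⟩
    have h1 : (z.1 - z0.1) * (r : ℤ) = (z.2 - z0.2) * q := by linarith [hz.2, hz0.2]
    have h2 : (z.1 - z0.1) * (r' : ℤ) = (z.2 - z0.2) * q' := by
      have hgZ : (g : ℤ) ≠ 0 := by exact_mod_cast hgpos.ne'
      have h3 : (g : ℤ) * ((z.1 - z0.1) * (r' : ℤ)) = g * ((z.2 - z0.2) * q') := by
        rw [hq', hr'] at h1
        push_cast at h1
        linarith
      exact mul_left_cancel₀ hgZ h3
    have h4 : (q' : ℤ) ∣ (z.1 - z0.1) * (r' : ℤ) := ⟨z.2 - z0.2, by rw [h2]; ring⟩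
    have h5 : IsCoprime (q' : ℤ) (r' : ℤ) := Nat.isCoprime_iff_coprime.2 hco
    have h6 : (q' : ℤ) ∣ (z.1 - z0.1) := h5.dvd_of_dvd_mul_right h4
    exact (Int.modEq_iff_dvd.2 (by
      obtain ⟨t, ht⟩ := h6
      exact ⟨-t, by linarith⟩))
  exact (card_le_card hsub).trans (ap_exact g q' hgpos hq'pos X z0.1).le

theorem card_le_gcd_mul (q r : ℕ) (hq : 0 < q) (hr : 0 < r) (X X' : ℤ)
    (Z : Finset (ℤ × ℤ)) (hZ : Z ⊆ Ico X (X + q) ×ˢ Ico X' (X' + r)) :
    #Z ≤ Nat.gcd q r * #(Z.image (fun z => z.1 * (r : ℤ) - z.2 * q)) := by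
  classical
  have h := card_eq_sum_card_image (fun z : ℤ × ℤ => z.1 * (r : ℤ) - z.2 * q) Z
  rw [h, mul_comm]
  refine (sum_le_card_nsmul _ _ (Nat.gcd q r) ?_).trans (by rw [smul_eq_mul])
  intro k _
  refine (card_le_card ?_).trans (fiber_count q r hq hr X X' k)
  exact filter_subset_filter _ hZ

theorem card_int_window (K : Finset ℤ) (α β : ℝ) (hαβ : α ≤ β) (h : ∀ t ∈ K, α < (t : ℝ) ∧ (t : ℝ) < β) :
    (#K : ℝ) ≤ β - α + 1 := by
  have hsub : K ⊆ Icc (⌊α⌋ + 1) (⌈β⌉ - 1) := by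
    intro t ht
    obtain ⟨h1, h2⟩ := h t ht
    rw [mem_Icc]
    constructor
    · have := Int.floor_lt.2 h1
      omega
    · have := Int.lt_ceil.2 h2
      omega
  have hc := card_le_card hsub
  rw [Int.card_Icc] at hc
  have h3 : (#K : ℝ) ≤ (((⌈β⌉ - 1 + 1 - (⌊α⌋ + 1)).toNat : ℕ) : ℝ) := by exact_mod_cast hc
  rcases le_total 0 (⌈β⌉ - 1 + 1 - (⌊α⌋ + 1)) with h4 | h4
  · have h5 : (((⌈β⌉ - 1 + 1 - (⌊α⌋ + 1)).toNat : ℕ) : ℝ) = ((⌈β⌉ - 1 + 1 - (⌊α⌋ + 1) : ℤ) : ℝ) := by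
      rw [← Int.cast_natCast, Int.toNat_of_nonneg h4]
    rw [h5] at h3
    push_cast at h3
    have h6 := Int.ceil_lt_add_one β
    have h7 := Int.sub_one_lt_floor α
    linarith
  · rw [Int.toNat_of_nonpos h4] at h3
    have : (#K : ℝ) ≤ 0 := by simpa using h3
    linarith

theorem card_int_nonzero (K : Finset ℤ) (R : ℝ) (hR : 0 ≤ R) (h : ∀ t ∈ K, t ≠ 0 ∧ |(t : ℝ)| < R) :
    (#K : ℝ) ≤ 2 * R := by
  classical
  set m := ⌈R⌉ - 1 with hm
  have hmR : (m : ℝ) < R := by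
    rw [hm]; push_cast
    linarith [Int.ceil_lt_add_one R]
  rcases lt_or_ge m 0 with hm0 | hm0
  · have : K = ∅ := by
      rw [eq_empty_iff_forall_notMem]
      intro t ht
      obtain ⟨h1, h2⟩ := h t ht
      have h3 : (|t| : ℤ) < ⌈R⌉ := by
        apply Int.lt_ceil.2
        push_cast
        exact h2
      have := abs_nonneg t
      have h4 : 0 < |t| := abs_pos.2 h1
      omega
    rw [this]; simpa using hR
  have hsub : K ⊆ Icc (-m) (-1) ∪ Icc 1 m := by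
    intro t ht
    obtain ⟨h1, h2⟩ := h t ht
    have h3 : (|t| : ℤ) < ⌈R⌉ := by
      apply Int.lt_ceil.2
      push_cast
      exact h2
    have h5 : |t| ≤ m := by omega
    rw [abs_le] at h5
    rw [mem_union, mem_Icc, mem_Icc]
    omega
  have hc := (card_le_card hsub).trans (card_union_le _ _)
  rw [Int.card_Icc, Int.card_Icc] at hc
  have h3 : (#K : ℝ) ≤ (((-1 + 1 - -m).toNat + (m + 1 - 1).toNat : ℕ) : ℝ) := by exact_mod_cast hc
  have e1 : ((-1 + 1 - -m).toNat : ℤ) = m := by rw [Int.toNat_of_nonneg (by omega)]; ring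
  have e2 : ((m + 1 - 1).toNat : ℤ) = m := by rw [Int.toNat_of_nonneg (by omega)]; ring
  have e3 : (((-1 + 1 - -m).toNat + (m + 1 - 1).toNat : ℕ) : ℝ) = (m : ℝ) + m := by
    rw [Nat.cast_add]
    have e4 : (((-1 + 1 - -m).toNat : ℤ) : ℝ) = (m : ℝ) := by rw [e1]
    have e5 : (((m + 1 - 1).toNat : ℤ) : ℝ) = (m : ℝ) := by rw [e2]
    rw [Int.cast_natCast] at e4 e5
    rw [e4, e5]
  rw [e3] at h3
  linarith

theorem diff_eq (q r : ℕ) (hq : 0 < q) (hr : 0 < r) (y y' : ℝ) (p s : ℤ) :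
    ((p : ℝ) + y) / q - ((s : ℝ) + y') / r =
      (((p * r - s * q : ℤ) : ℝ) + (y * r - y' * q)) / (q * r) := by
  have h1 : (q : ℝ) ≠ 0 := by exact_mod_cast hq.ne'
  have h2 : (r : ℝ) ≠ 0 := by exact_mod_cast hr.ne'
  push_cast
  field_simp
  ring

/-- number of close pairs, arbitrary real shifts -/
theorem close_pairs (q r : ℕ) (hq : 0 < q) (hr : 0 < r) (y y' : ℝ) (X X' : ℤ) (δ : ℝ) (hδ : 0 ≤ δ)
    (Z : Finset (ℤ × ℤ)) (hZ : Z ⊆ Ico X (X + q) ×ˢ Ico X' (X' + r))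
    (hclose : ∀ z ∈ Z, |((z.1 : ℝ) + y) / q - ((z.2 : ℝ) + y') / r| < δ) :
    (#Z : ℝ) ≤ 2 * (δ * (q * r)) + Nat.gcd q r := by
  classical
  set g := Nat.gcd q r with hg
  have hgpos : 0 < g := Nat.gcd_pos_of_pos_left _ hq
  have hgr : (0 : ℝ) < g := by exact_mod_cast hgpos
  have hqr : (0 : ℝ) < q * r := by
    have h1 : (0 : ℝ) < q := by exact_mod_cast hq
    have h2 : (0 : ℝ) < r := by exact_mod_cast hr
    positivity
  have h0 := card_le_gcd_mul q r hq hr X X' Z hZ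
  set K := Z.image (fun z => z.1 * (r : ℤ) - z.2 * q) with hK
  set c := y * r - y' * q with hc
  have hKm : ∀ k ∈ K, (g : ℤ) ∣ k ∧ |(k : ℝ) + c| < δ * (q * r) := by
    intro k hk
    rw [hK, mem_image] at hk
    obtain ⟨z, hz, rfl⟩ := hk
    constructor
    · have h1 : (g : ℤ) ∣ r := by exact_mod_cast Nat.gcd_dvd_right q r
      have h2 : (g : ℤ) ∣ q := by exact_mod_cast Nat.gcd_dvd_left q r
      exact dvd_sub (Dvd.dvd.mul_left h1 _) (Dvd.dvd.mul_left h2 _)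
    · have := hclose z hz
      rw [diff_eq q r hq hr, abs_div, abs_of_pos hqr, div_lt_iff₀ hqr] at this
      exact this
  -- divide by g
  have hcard : (#K : ℝ) ≤ 2 * (δ * (q * r)) / g + 1 := by
    have hinj : Set.InjOn (fun k : ℤ => k / (g : ℤ)) ↑K := by
      intro a ha b hb hab
      have h1 := (hKm a ha).1
      have h2 := (hKm b hb).1
      have h3 : a / (g : ℤ) = b / g := hab
      calc a = g * (a / g) := (Int.mul_ediv_cancel' h1).symm
        _ = g * (b / g) := by rw [h3]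
        _ = b := Int.mul_ediv_cancel' h2
    rw [← card_image_of_injOn hinj]
    have := card_int_window (K.image (fun k : ℤ => k / (g : ℤ))) ((-(δ * (q * r)) - c) / g)
      (((δ * (q * r)) - c) / g) (by
        have : 0 ≤ δ * (q * r) := by positivity
        gcongr
        linarith) (by
        intro t ht
        rw [mem_image] at ht
        obtain ⟨k, hk, rfl⟩ := ht
        obtain ⟨h1, h2⟩ := hKm k hk
        rw [abs_lt] at h2
        have h3 : (k : ℝ) = g * ((k / (g : ℤ) : ℤ) : ℝ) := by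
          have := (Int.mul_ediv_cancel' h1).symm
          exact_mod_cast this
        constructor
        · rw [div_lt_iff₀ hgr]; linarith
        · rw [lt_div_iff₀ hgr]; linarith)
    refine this.trans (le_of_eq ?_)
    field_simp
    ring
  calc (#Z : ℝ) ≤ ((g * #K : ℕ) : ℝ) := by exact_mod_cast h0
    _ = g * (#K : ℝ) := by push_cast; ring
    _ ≤ g * (2 * (δ * (q * r)) / g + 1) := by gcongr
    _ = 2 * (δ * (q * r)) + g := by field_simp

/-- number of close pairs that do not coincide, shifts with a common denominator -/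
theorem close_pairs_rat (q r v : ℕ) (hq : 0 < q) (hr : 0 < r) (hv : 0 < v) (u u' : ℤ) (X X' : ℤ)
    (δ : ℝ) (hδ : 0 ≤ δ)
    (Z : Finset (ℤ × ℤ)) (hZ : Z ⊆ Ico X (X + q) ×ˢ Ico X' (X' + r))
    (hclose : ∀ z ∈ Z, |((z.1 : ℝ) + (u : ℝ) / v) / q - ((z.2 : ℝ) + (u' : ℝ) / v) / r| < δ)
    (hne : ∀ z ∈ Z, (v * z.1 + u) * (r : ℤ) ≠ (v * z.2 + u') * q) :
    (#Z : ℝ) ≤ 2 * v * (δ * (q * r)) := by
  classical
  set g := Nat.gcd q r with hg
  have hgpos : 0 < g := Nat.gcd_pos_of_pos_left _ hq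
  have hgr : (0 : ℝ) < g := by exact_mod_cast hgpos
  have hvr : (0 : ℝ) < v := by exact_mod_cast hv
  have hqr : (0 : ℝ) < q * r := by
    have h1 : (0 : ℝ) < q := by exact_mod_cast hq
    have h2 : (0 : ℝ) < r := by exact_mod_cast hr
    positivity
  obtain ⟨q', hq'⟩ : g ∣ q := Nat.gcd_dvd_left _ _
  obtain ⟨r', hr'⟩ : g ∣ r := Nat.gcd_dvd_right _ _
  have h0 := card_le_gcd_mul q r hq hr X X' Z hZ
  set K := Z.image (fun z => z.1 * (r : ℤ) - z.2 * q) with hK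
  -- w = v * (k / g) + (u r' - u' q')
  set e : ℤ := u * r' - u' * q' with he
  have hKm : ∀ k ∈ K, (g : ℤ) ∣ k ∧ v * (k / (g : ℤ)) + e ≠ 0 ∧
      |((v * (k / (g : ℤ)) + e : ℤ) : ℝ)| < v * (δ * (q * r)) / g := by
    intro k hk
    rw [hK, mem_image] at hk
    obtain ⟨z, hz, hzk⟩ := hk
    have hd : (g : ℤ) ∣ k := by
      rw [← hzk]
      have h1 : (g : ℤ) ∣ r := by exact_mod_cast Nat.gcd_dvd_right q r
      have h2 : (g : ℤ) ∣ q := by exact_mod_cast Nat.gcd_dvd_left q r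
      exact dvd_sub (Dvd.dvd.mul_left h1 _) (Dvd.dvd.mul_left h2 _)
    have hkg : (g : ℤ) * (k / (g : ℤ)) = k := Int.mul_ediv_cancel' hd
    have hge : (g : ℤ) * e = u * r - u' * q := by
      rw [he]
      have h1 : (r : ℤ) = g * r' := by exact_mod_cast hr'
      have h2 : (q : ℤ) = g * q' := by exact_mod_cast hq'
      rw [h1, h2]; ring
    have hgw : (g : ℤ) * (v * (k / (g : ℤ)) + e) = (v * z.1 + u) * (r : ℤ) - (v * z.2 + u') * q := by
      have : (g : ℤ) * (v * (k / (g : ℤ)) + e) = v * ((g : ℤ) * (k / (g : ℤ))) + g * e := by ring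
      rw [this, hkg, hge, ← hzk]
      ring
    refine ⟨hd, ?_, ?_⟩
    · intro h
      rw [h, mul_zero] at hgw
      exact hne z hz (by linarith)
    · have := hclose z hz
      rw [diff_eq q r hq hr, abs_div, abs_of_pos hqr, div_lt_iff₀ hqr] at this
      have h5 : (g : ℝ) * ((v * (k / (g : ℤ)) + e : ℤ) : ℝ) =
          v * (((z.1 * r - z.2 * q : ℤ) : ℝ) + ((u : ℝ) / v * r - (u' : ℝ) / v * q)) := by
        have h6 : ((g : ℤ) * (v * (k / (g : ℤ)) + e) : ℤ) =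
            ((v * z.1 + u) * (r : ℤ) - (v * z.2 + u') * q : ℤ) := hgw
        have h7 : (((g : ℤ) * (v * (k / (g : ℤ)) + e) : ℤ) : ℝ) =
            (((v * z.1 + u) * (r : ℤ) - (v * z.2 + u') * q : ℤ) : ℝ) := by rw [h6]
        rw [Int.cast_mul, Int.cast_natCast] at h7
        rw [h7]
        push_cast
        field_simp
        ring
      rw [lt_div_iff₀ hgr]
      calc |((v * (k / (g : ℤ)) + e : ℤ) : ℝ)| * g = |(g : ℝ) * ((v * (k / (g : ℤ)) + e : ℤ) : ℝ)| := by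
            rw [abs_mul, abs_of_pos hgr, mul_comm]
        _ = v * |((z.1 * r - z.2 * q : ℤ) : ℝ) + ((u : ℝ) / v * r - (u' : ℝ) / v * q)| := by
            rw [h5, abs_mul, abs_of_pos hvr]
        _ < v * (δ * (q * r)) := by
            exact mul_lt_mul_of_pos_left this hvr
  have hcard : (#K : ℝ) ≤ 2 * (v * (δ * (q * r)) / g) := by
    have hinj : Set.InjOn (fun k : ℤ => v * (k / (g : ℤ)) + e) ↑K := by
      intro a ha b hb hab
      have h1 := (hKm a ha).1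
      have h2 := (hKm b hb).1
      have h3 : (v : ℤ) * (a / (g : ℤ)) + e = v * (b / g) + e := hab
      have hvZ : (v : ℤ) ≠ 0 := by exact_mod_cast hv.ne'
      have h4 : a / (g : ℤ) = b / g := mul_left_cancel₀ hvZ (by linarith)
      calc a = g * (a / g) := (Int.mul_ediv_cancel' h1).symm
        _ = g * (b / g) := by rw [h4]
        _ = b := Int.mul_ediv_cancel' h2
    rw [← card_image_of_injOn hinj]
    refine card_int_nonzero _ _ (by positivity) ?_
    intro t ht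
    rw [mem_image] at ht
    obtain ⟨k, hk, rfl⟩ := ht
    exact (hKm k hk).2
  calc (#Z : ℝ) ≤ ((g * #K : ℕ) : ℝ) := by exact_mod_cast h0
    _ = g * (#K : ℝ) := by push_cast; ring
    _ ≤ g * (2 * (v * (δ * (q * r)) / g)) := by gcongr
    _ = 2 * v * (δ * (q * r)) := by field_simp

end Pool.Agent.X152.DS
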