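import Mathlib

set_option autoImplicit false

namespace Pool.Agent.X152.DS

open Finset

theorem ap_count (m : ℕ) (hm : 0 < m) (a X Y : ℤ) (hXY : X ≤ Y) :
    |((#{n ∈ Ico X Y | n ≡ a [ZMOD (m : ℤ)]} : ℕ) : ℝ) - ((Y : ℝ) - X) / m| ≤ 1 := by
  have hmZ : (0 : ℤ) < m := by exact_mod_cast hm
  have hmQ : (0 : ℚ) < m := by exact_mod_cast hm
  have h := Int.Ico_filter_modEq_card X Y hmZ a
  have hmono : ⌈((X : ℚ) - a) / ((m : ℤ) : ℚ)⌉ ≤ ⌈((Y : ℚ) - a) / ((m : ℤ) : ℚ)⌉ := by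
    apply Int.ceil_mono
    have : (X : ℚ) ≤ Y := by exact_mod_cast hXY
    have h2 : (0 : ℚ) < ((m : ℤ) : ℚ) := by exact_mod_cast hm
    gcongr
  rw [max_eq_left (by omega)] at h
  set cy := ⌈((Y : ℚ) - a) / ((m : ℤ) : ℚ)⌉ with hcy
  set cx := ⌈((X : ℚ) - a) / ((m : ℤ) : ℚ)⌉ with hcx
  have h1 : ((Y : ℚ) - a) / ((m : ℤ) : ℚ) ≤ cy := Int.le_ceil _
  have h2 : (cy : ℚ) < ((Y : ℚ) - a) / ((m : ℤ) : ℚ) + 1 := Int.ceil_lt_add_one _
  have h3 : ((X : ℚ) - a) / ((m : ℤ) : ℚ) ≤ cx := Int.le_ceil _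
  have h4 : (cx : ℚ) < ((X : ℚ) - a) / ((m : ℤ) : ℚ) + 1 := Int.ceil_lt_add_one _
  have h5 : ((Y : ℚ) - X) / m - 1 ≤ (cy - cx : ℤ) ∧ ((cy - cx : ℤ) : ℚ) ≤ ((Y : ℚ) - X) / m + 1 := by
    have e : ((Y : ℚ) - X) / m = ((Y : ℚ) - a) / ((m : ℤ) : ℚ) - ((X : ℚ) - a) / ((m : ℤ) : ℚ) := by
      push_cast; ring
    rw [e]
    push_cast at *
    constructor <;> linarith
  have h6 : ((#{n ∈ Ico X Y | n ≡ a [ZMOD (m : ℤ)]} : ℕ) : ℤ) = cy - cx := h
  have h7 : ((#{n ∈ Ico X Y | n ≡ a [ZMOD (m : ℤ)]} : ℕ) : ℝ) = ((cy - cx : ℤ) : ℝ) := by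
    rw [← h6]; push_cast; rfl
  rw [h7]
  have h8 : (((Y : ℝ) - X) / m - 1 ≤ ((cy - cx : ℤ) : ℝ)) := by exact_mod_cast h5.1
  have h9 : (((cy - cx : ℤ) : ℝ) ≤ ((Y : ℝ) - X) / m + 1) := by exact_mod_cast h5.2
  rw [abs_le]
  constructor <;> linarith

/-- Legendre sieve with several residue classes, in an arithmetic progression. -/
theorem sieve (Ω : (l : ℕ) → Finset (ZMod l)) (T : Finset ℕ) :
    (∀ l ∈ T, l.Prime) → ∀ (m : ℕ) (a : ℤ), 0 < m → (∀ l ∈ T, Nat.Coprime m l) →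
    ∀ X Y : ℤ, X ≤ Y →
    |((#{n ∈ Ico X Y | n ≡ a [ZMOD (m : ℤ)] ∧ ∀ l ∈ T, ((n : ℤ) : ZMod l) ∉ Ω l} : ℕ) : ℝ)
      - ((Y : ℝ) - X) / m * ∏ l ∈ T, (1 - (#(Ω l) : ℝ) / l)| ≤ ∏ l ∈ T, (1 + (#(Ω l) : ℝ)) := by
  classical
  induction T using Finset.induction_on with
  | empty =>
    intro _ m a hm _ X Y hXY
    simpa using ap_count m hm a X Y hXY
  | insert l T hl ih =>
    intro hp m a hm hcop X Y hXY
    have hlp : l.Prime := hp l (mem_insert_self _ _)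
    have hpT : ∀ k ∈ T, k.Prime := fun k hk => hp k (mem_insert_of_mem hk)
    have hcT : ∀ k ∈ T, Nat.Coprime m k := fun k hk => hcop k (mem_insert_of_mem hk)
    have hml : Nat.Coprime m l := hcop l (mem_insert_self _ _)
    have : NeZero l := ⟨hlp.ne_zero⟩
    -- class representatives
    have hcrt : ∀ w : ZMod l, ∃ b : ℤ, ∀ n : ℤ,
        (n ≡ a [ZMOD (m : ℤ)] ∧ ((n : ℤ) : ZMod l) = w) ↔ n ≡ b [ZMOD ((m * l : ℕ) : ℤ)] := by
      intro w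
      have hco : (m : ℤ).natAbs.Coprime (l : ℤ).natAbs := by simpa using hml
      obtain ⟨b, hb1, hb2⟩ : ∃ b : ℤ, b ≡ a [ZMOD (m : ℤ)] ∧ b ≡ (w.val : ℤ) [ZMOD (l : ℤ)] := by
        have hg : IsCoprime (m : ℤ) (l : ℤ) := Nat.isCoprime_iff_coprime.2 hml
        obtain ⟨u, v, huv⟩ := hg
        refine ⟨a * (v * l) + (w.val : ℤ) * (u * m), ?_, ?_⟩
        · have : a * (v * l) + (w.val : ℤ) * (u * m) = a + m * ((w.val : ℤ) * u - a * u) := by
            linear_combination a * huv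
          rw [this]
          exact (Int.modEq_iff_dvd.2 ⟨-((w.val : ℤ) * u - a * u), by ring⟩)
        · have : a * (v * l) + (w.val : ℤ) * (u * m) = (w.val : ℤ) + l * (a * v - (w.val : ℤ) * v) := by
            linear_combination (w.val : ℤ) * huv
          rw [this]
          exact (Int.modEq_iff_dvd.2 ⟨-(a * v - (w.val : ℤ) * v), by ring⟩)
      refine ⟨b, fun n => ?_⟩
      have e1 : (((n : ℤ) : ZMod l) = w) ↔ n ≡ b [ZMOD (l : ℤ)] := by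
        have e2 : w = ((w.val : ℤ) : ZMod l) := by simp
        constructor
        · intro h
          rw [e2] at h
          exact ((ZMod.intCast_eq_intCast_iff _ _ _).1 h).trans hb2.symm
        · intro h
          rw [e2]
          exact (ZMod.intCast_eq_intCast_iff _ _ _).2 (h.trans hb2)
      rw [e1]
      push_cast
      rw [← Int.modEq_and_modEq_iff_modEq_mul hco]
      constructor
      · rintro ⟨h1, h2⟩; exact ⟨h1.trans hb1.symm, h2⟩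
      · rintro ⟨h1, h2⟩; exact ⟨h1.trans hb1, h2⟩
    choose b hb using hcrt
    -- decomposition of the count
    have hcount : ((#{n ∈ Ico X Y | n ≡ a [ZMOD (m : ℤ)] ∧ ∀ k ∈ insert l T, ((n : ℤ) : ZMod k) ∉ Ω k} : ℕ) : ℝ)
        = ((#{n ∈ Ico X Y | n ≡ a [ZMOD (m : ℤ)] ∧ ∀ k ∈ T, ((n : ℤ) : ZMod k) ∉ Ω k} : ℕ) : ℝ)
          - ∑ w ∈ Ω l, ((#{n ∈ Ico X Y | n ≡ b w [ZMOD ((m * l : ℕ) : ℤ)] ∧
              ∀ k ∈ T, ((n : ℤ) : ZMod k) ∉ Ω k} : ℕ) : ℝ) := by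
      have hsplit : #{n ∈ Ico X Y | n ≡ a [ZMOD (m : ℤ)] ∧ ∀ k ∈ T, ((n : ℤ) : ZMod k) ∉ Ω k} =
          #{n ∈ Ico X Y | n ≡ a [ZMOD (m : ℤ)] ∧ ∀ k ∈ insert l T, ((n : ℤ) : ZMod k) ∉ Ω k}
          + ∑ w ∈ Ω l, #{n ∈ Ico X Y | n ≡ b w [ZMOD ((m * l : ℕ) : ℤ)] ∧
              ∀ k ∈ T, ((n : ℤ) : ZMod k) ∉ Ω k} := by
        have hbi : (Ω l).biUnion (fun w => {n ∈ Ico X Y | n ≡ b w [ZMOD ((m * l : ℕ) : ℤ)] ∧
              ∀ k ∈ T, ((n : ℤ) : ZMod k) ∉ Ω k}) =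
            {n ∈ Ico X Y | (n ≡ a [ZMOD (m : ℤ)] ∧ ∀ k ∈ T, ((n : ℤ) : ZMod k) ∉ Ω k) ∧
              ((n : ℤ) : ZMod l) ∈ Ω l} := by
          ext n
          simp only [mem_biUnion, mem_filter]
          constructor
          · rintro ⟨w, hw, hn, h1, h2⟩
            have h3 := (hb w n).2 h1
            refine ⟨hn, ⟨h3.1, h2⟩, ?_⟩
            rw [h3.2]; exact hw
          · rintro ⟨hn, ⟨h1, h2⟩, h3⟩
            exact ⟨_, h3, hn, (hb _ n).1 ⟨h1, rfl⟩, h2⟩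
        have hdisj : Set.PairwiseDisjoint (↑(Ω l) : Set (ZMod l))
            (fun w => {n ∈ Ico X Y | n ≡ b w [ZMOD ((m * l : ℕ) : ℤ)] ∧
              ∀ k ∈ T, ((n : ℤ) : ZMod k) ∉ Ω k}) := by
          intro w _ w' _ hww
          rw [Function.onFun, Finset.disjoint_left]
          intro n h1 h2
          rw [mem_filter] at h1 h2
          exact hww (((hb w n).2 h1.2.1).2.symm.trans ((hb w' n).2 h2.2.1).2)
        rw [← Finset.card_biUnion (fun w hw w' hw' h => hdisj hw hw' h), hbi]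
        rw [← Finset.card_union_of_disjoint]
        · congr 1
          ext n
          simp only [mem_union, mem_filter, mem_insert, forall_eq_or_imp]
          by_cases h : ((n : ℤ) : ZMod l) ∈ Ω l <;> simp [h]
        · rw [Finset.disjoint_left]
          intro n h1 h2
          rw [mem_filter] at h1 h2
          exact h1.2.2 l (mem_insert_self _ _) h2.2.2
      rw [hsplit]
      push_cast
      ring
    rw [hcount]
    have h0 := ih hpT m a hm hcT X Y hXY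
    have hcml : ∀ k ∈ T, Nat.Coprime (m * l) k := by
      intro k hk
      refine Nat.Coprime.mul_left (hcT k hk) ?_
      rw [Nat.coprime_primes hlp (hpT k hk)]
      rintro rfl
      exact hl hk
    have hw : ∀ w ∈ Ω l, |((#{n ∈ Ico X Y | n ≡ b w [ZMOD ((m * l : ℕ) : ℤ)] ∧
              ∀ k ∈ T, ((n : ℤ) : ZMod k) ∉ Ω k} : ℕ) : ℝ)
          - ((Y : ℝ) - X) / (m * l : ℕ) * ∏ k ∈ T, (1 - (#(Ω k) : ℝ) / k)| ≤ ∏ k ∈ T, (1 + (#(Ω k) : ℝ)) :=
      fun w _ => ih hpT (m * l) (b w) (Nat.mul_pos hm hlp.pos) hcml X Y hXY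
    rw [prod_insert hl, prod_insert hl]
    set P := ∏ k ∈ T, (1 - (#(Ω k) : ℝ) / k) with hP
    set R := ∏ k ∈ T, (1 + (#(Ω k) : ℝ)) with hR
    set c0 := ((#{n ∈ Ico X Y | n ≡ a [ZMOD (m : ℤ)] ∧ ∀ k ∈ T, ((n : ℤ) : ZMod k) ∉ Ω k} : ℕ) : ℝ) with hc0
    have hsum : |∑ w ∈ Ω l, (((#{n ∈ Ico X Y | n ≡ b w [ZMOD ((m * l : ℕ) : ℤ)] ∧
              ∀ k ∈ T, ((n : ℤ) : ZMod k) ∉ Ω k} : ℕ) : ℝ) - ((Y : ℝ) - X) / (m * l : ℕ) * P)|
          ≤ (#(Ω l) : ℝ) * R := by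
      refine (Finset.abs_sum_le_sum_abs _ _).trans ?_
      refine (Finset.sum_le_sum hw).trans ?_
      rw [sum_const, nsmul_eq_mul]
    have hlr : (0 : ℝ) < l := by exact_mod_cast hlp.pos
    have hmr : (0 : ℝ) < m := by exact_mod_cast hm
    have hexp : c0 - ∑ w ∈ Ω l, ((#{n ∈ Ico X Y | n ≡ b w [ZMOD ((m * l : ℕ) : ℤ)] ∧
              ∀ k ∈ T, ((n : ℤ) : ZMod k) ∉ Ω k} : ℕ) : ℝ)
          - ((Y : ℝ) - X) / m * ((1 - (#(Ω l) : ℝ) / l) * P) =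
        (c0 - ((Y : ℝ) - X) / m * P) - ∑ w ∈ Ω l, (((#{n ∈ Ico X Y | n ≡ b w [ZMOD ((m * l : ℕ) : ℤ)] ∧
              ∀ k ∈ T, ((n : ℤ) : ZMod k) ∉ Ω k} : ℕ) : ℝ) - ((Y : ℝ) - X) / (m * l : ℕ) * P) := by
      rw [sum_sub_distrib, sum_const, nsmul_eq_mul]
      push_cast
      field_simp
      ring
    rw [hexp]
    calc _ ≤ |c0 - ((Y : ℝ) - X) / m * P| + |∑ w ∈ Ω l, (((#{n ∈ Ico X Y | n ≡ b w [ZMOD ((m * l : ℕ) : ℤ)] ∧
              ∀ k ∈ T, ((n : ℤ) : ZMod k) ∉ Ω k} : ℕ) : ℝ) - ((Y : ℝ) - X) / (m * l : ℕ) * P)| :=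
          abs_sub _ _
      _ ≤ R + (#(Ω l) : ℝ) * R := add_le_add h0 hsum
      _ = (1 + (#(Ω l) : ℝ)) * R := by ring

theorem three_pow_omega (q : ℕ) (hq : 0 < q) :
    (3 : ℝ) ^ (#q.primeFactors) ≤ 81 * Real.sqrt q := by
  classical
  have h1 : (3 : ℝ) ^ (#q.primeFactors) = (∏ p ∈ q.primeFactors.filter (· < 9), (3 : ℝ)) *
      ∏ p ∈ q.primeFactors.filter (fun p => ¬ p < 9), (3 : ℝ) := by
    rw [prod_filter_mul_prod_filter_not, prod_const]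
  have h2 : (∏ p ∈ q.primeFactors.filter (· < 9), (3 : ℝ)) ≤ 81 := by
    rw [prod_const]
    have hsub : q.primeFactors.filter (· < 9) ⊆ {2, 3, 5, 7} := by
      intro p hp
      rw [mem_filter] at hp
      have hpp := Nat.prime_of_mem_primeFactors hp.1
      have hlt := hp.2
      interval_cases p <;> simp_all (config := { decide := true })
    have hc : #(q.primeFactors.filter (· < 9)) ≤ 4 := (card_le_card hsub).trans (by decide)
    calc (3 : ℝ) ^ (#(q.primeFactors.filter (· < 9))) ≤ 3 ^ 4 :=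
          pow_le_pow_right₀ (by norm_num) hc
      _ = 81 := by norm_num
  have h3 : ∏ p ∈ q.primeFactors.filter (fun p => ¬ p < 9), (3 : ℝ) ≤ Real.sqrt q := by
    calc ∏ p ∈ q.primeFactors.filter (fun p => ¬ p < 9), (3 : ℝ)
        ≤ ∏ p ∈ q.primeFactors.filter (fun p => ¬ p < 9), Real.sqrt p := by
          refine prod_le_prod (fun _ _ => by norm_num) fun p hp => ?_
          rw [mem_filter] at hp
          have : (9 : ℝ) ≤ p := by exact_mod_cast not_lt.1 hp.2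
          calc (3 : ℝ) = Real.sqrt 9 := by
                rw [show (9 : ℝ) = 3 ^ 2 by norm_num, Real.sqrt_sq (by norm_num)]
            _ ≤ Real.sqrt p := Real.sqrt_le_sqrt this
      _ = Real.sqrt (∏ p ∈ q.primeFactors.filter (fun p => ¬ p < 9), (p : ℝ)) := by
          rw [Real.sqrt_prod _ (fun p _ => by positivity)]
      _ ≤ Real.sqrt q := by
          apply Real.sqrt_le_sqrt
          have h4 : (∏ p ∈ q.primeFactors.filter (fun p => ¬ p < 9), p) ∣ q :=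
            (prod_dvd_prod_of_subset _ _ _ (filter_subset _ _)).trans (Nat.prod_primeFactors_dvd q)
          have h5 : ((∏ p ∈ q.primeFactors.filter (fun p => ¬ p < 9), p : ℕ) : ℝ) ≤ (q : ℝ) :=
            Nat.cast_le.2 (Nat.le_of_dvd hq h4)
          rw [Nat.cast_prod] at h5
          exact h5
  rw [h1]
  exact mul_le_mul h2 h3 (by positivity) (by norm_num)

end Pool.Agent.X152.DS
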