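import Mathlib
import Pool.Agent.X152.DS.Engine
import Pool.Agent.X152.DS.Sieve
import Pool.Agent.X152.DS.Count

set_option autoImplicit false

namespace Pool.Agent.X152.DS

open MeasureTheory Finset Filter

open scoped Classical in
/-- numerators p with (p + y)/q in [0,1) -/
noncomputable def num (y : ℝ) (q : ℕ) : Finset ℤ := Finset.Ico ⌈-y⌉ (⌈-y⌉ + q)

theorem card_num (y : ℝ) (q : ℕ) : #(num y q) = q := by
  rw [num, Int.card_Ico]; simp

open scoped Classical in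
theorem assembly (y ψ : ℕ → ℝ) (A : ℕ → ℤ → Prop) (Q0 : ℕ) (c C : ℝ) (hc : 0 < c) (hC : 0 ≤ C)
    (h : ∀ N : ℕ, 0 < N → ∃ W : Finset ℕ, 0 < ∑ q ∈ W, ψ q ∧
      (∀ q ∈ W, Q0 ≤ q ∧ N ≤ q ∧ 0 ≤ ψ q ∧ ψ q ≤ 1 / 2) ∧
      (∀ q ∈ W, ∀ i : ℕ, i < N → c * q / N ≤
        (#{p ∈ num (y q) q | A q p ∧ (i : ℝ) / N ≤ ((p : ℝ) + y q) / q ∧
          ((p : ℝ) + y q) / q < ((i : ℝ) + 1) / N} : ℝ)) ∧
      (∑ q ∈ W, ∑ r ∈ W, min (ψ q / q) (ψ r / r) *
        (#{z ∈ num (y q) q ×ˢ num (y r) r | A q z.1 ∧ A r z.2 ∧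
          |((z.1 : ℝ) + y q) / q - ((z.2 : ℝ) + y r) / r| < ψ q / q + ψ r / r} : ℝ))
        ≤ C * (∑ q ∈ W, ψ q) ^ 2) :
    volume (Set.Ico (0 : ℝ) 1 \
      {x : ℝ | ∃ q : ℕ, Q0 ≤ q ∧ ∃ p : ℤ, A q p ∧ |(q : ℝ) * x - p - y q| < ψ q}) = 0 := by
  have hE : MeasurableSet {x : ℝ | ∃ q : ℕ, Q0 ≤ q ∧ ∃ p : ℤ, A q p ∧ |(q : ℝ) * x - p - y q| < ψ q} := by
    have : {x : ℝ | ∃ q : ℕ, Q0 ≤ q ∧ ∃ p : ℤ, A q p ∧ |(q : ℝ) * x - p - y q| < ψ q} =
        ⋃ q : ℕ, ⋃ p : ℤ, {x : ℝ | (Q0 ≤ q ∧ A q p) ∧ |(q : ℝ) * x - p - y q| < ψ q} := by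
      ext x
      simp only [Set.mem_setOf_eq, Set.mem_iUnion]
      constructor
      · rintro ⟨q, h1, p, h2, h3⟩; exact ⟨q, p, ⟨h1, h2⟩, h3⟩
      · rintro ⟨q, p, ⟨h1, h2⟩, h3⟩; exact ⟨q, h1, p, h2, h3⟩
    rw [this]
    refine MeasurableSet.iUnion fun q => MeasurableSet.iUnion fun p => ?_
    by_cases hh : Q0 ≤ q ∧ A q p
    · have : {x : ℝ | (Q0 ≤ q ∧ A q p) ∧ |(q : ℝ) * x - p - y q| < ψ q} =
          {x : ℝ | |(q : ℝ) * x - p - y q| < ψ q} := by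
        ext x; simp [hh]
      rw [this]
      exact measurableSet_lt (by fun_prop) measurable_const
    · have : {x : ℝ | (Q0 ≤ q ∧ A q p) ∧ |(q : ℝ) * x - p - y q| < ψ q} = ∅ := by
        ext x
        simp only [Set.mem_setOf_eq, Set.mem_empty_iff_false, iff_false]
        exact fun hx => hh hx.1
      rw [this]; exact MeasurableSet.empty
  refine engine _ hE c C hc hC ?_
  intro N hN
  obtain ⟨W, hWpos, hW, hcnt, hov⟩ := h N hN
  have hNr : (0 : ℝ) < N := by exact_mod_cast hN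
  have hqpos : ∀ q ∈ W, (0 : ℝ) < q := by
    intro q hq
    have := (hW q hq).2.1
    have h2 : 0 < q := by omega
    exact_mod_cast h2
  refine ⟨(Σ _ : ℕ, ℤ), W.sigma (fun q => (num (y q) q).filter (A q)),
    fun j => ((j.2 : ℝ) + y j.1) / j.1, fun j => ψ j.1 / j.1, ∑ q ∈ W, ψ q, hWpos, ?_, ?_, ?_⟩
  · rintro ⟨q, p⟩ hj
    rw [mem_sigma, mem_filter] at hj
    obtain ⟨hq, hp, hA⟩ := hj
    have hq0 := hqpos q hq
    obtain ⟨h1, h2, h3, h4⟩ := hW q hq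
    have h2r : (N : ℝ) ≤ q := by exact_mod_cast h2
    refine ⟨div_nonneg h3 hq0.le, ?_, ?_⟩
    · simp only
      rw [div_le_div_iff₀ hq0 hNr]
      nlinarith
    · intro z hz
      refine ⟨q, h1, p, hA, ?_⟩
      simp only [Set.mem_Ioo] at hz
      have e : (q : ℝ) * z - p - y q = q * (z - ((p : ℝ) + y q) / q) := by
        field_simp
        ring
      rw [e, abs_mul, abs_of_pos hq0]
      have h5 : |z - ((p : ℝ) + y q) / q| < ψ q / q := by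
        rw [abs_lt]; constructor <;> linarith [hz.1, hz.2]
      calc (q : ℝ) * |z - ((p : ℝ) + y q) / q| < q * (ψ q / q) := mul_lt_mul_of_pos_left h5 hq0
        _ = ψ q := by field_simp
  · intro i hi
    have e1 : (W.sigma (fun q => (num (y q) q).filter (A q))).filter
        (fun j : (Σ _ : ℕ, ℤ) => (i : ℝ) / N ≤ ((j.2 : ℝ) + y j.1) / j.1 ∧
          ((j.2 : ℝ) + y j.1) / j.1 < ((i : ℝ) + 1) / N) =
        W.sigma (fun q => {p ∈ num (y q) q | A q p ∧ (i : ℝ) / N ≤ ((p : ℝ) + y q) / q ∧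
          ((p : ℝ) + y q) / q < ((i : ℝ) + 1) / N}) := by
      ext ⟨q, p⟩
      simp only [mem_filter, mem_sigma]
      tauto
    rw [e1, sum_sigma]
    simp only [sum_const, nsmul_eq_mul]
    rw [mul_div_assoc, sum_div, mul_sum]
    refine sum_le_sum fun q hq => ?_
    have hq0 := hqpos q hq
    have h3 := (hW q hq).2.2.1
    calc c * (ψ q / N) = (c * q / N) * (ψ q / q) := by field_simp
      _ ≤ _ := mul_le_mul_of_nonneg_right (hcnt q hq i hi) (div_nonneg h3 hq0.le)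
  · rw [sum_sigma]
    refine le_trans (le_of_eq ?_) hov
    refine sum_congr rfl fun q _ => ?_
    have e2 : ∀ p ∈ (num (y q) q).filter (A q),
        (∑ k ∈ W.sigma (fun q => (num (y q) q).filter (A q)),
          if |((p : ℝ) + y q) / q - ((k.2 : ℝ) + y k.1) / k.1| < ψ q / q + ψ k.1 / k.1
            then min (ψ q / q) (ψ k.1 / k.1) else 0) =
        ∑ r ∈ W, ∑ s ∈ (num (y r) r).filter (A r),
          (if |((p : ℝ) + y q) / q - ((s : ℝ) + y r) / r| < ψ q / q + ψ r / r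
            then min (ψ q / q) (ψ r / r) else 0) := by
      intro p _
      rw [sum_sigma]
    rw [sum_congr rfl e2, sum_comm]
    refine sum_congr rfl fun r _ => ?_
    rw [← sum_product', ← sum_filter, sum_const, nsmul_eq_mul, mul_comm]
    congr 2
    congr 1
    ext ⟨p, s⟩
    simp only [mem_filter, mem_product]
    tauto

theorem cell_count (Ω : (l : ℕ) → Finset (ZMod l)) (c0 : ℝ) (hc0 : 0 < c0) (N : ℕ) (hN : 0 < N) :
    ∃ Q1 : ℕ, ∀ (q : ℕ) (Ω : (l : ℕ) → Finset (ZMod l)), Q1 ≤ q → c0 * q ≤ (Nat.totient q : ℝ) →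
      (∀ l ∈ q.primeFactors, #(Ω l) ≤ 2 ∧ (#(Ω l) : ℝ) / l ≤ 1 - (1 - 1 / (l : ℝ)) ^ 3) →
      ∀ (y : ℝ) (i : ℕ), i < N → c0 ^ 3 / 2 * q / N ≤
        (#{p ∈ num y q | (∀ l ∈ q.primeFactors, ((p : ℤ) : ZMod l) ∉ Ω l) ∧
          (i : ℝ) / N ≤ ((p : ℝ) + y) / q ∧ ((p : ℝ) + y) / q < ((i : ℝ) + 1) / N} : ℝ) := by
  classical
  have hNr : (0 : ℝ) < N := by exact_mod_cast hN
  obtain ⟨Q1, hQ1⟩ := exists_nat_gt ((2 * N * (81 + c0 ^ 3) / c0 ^ 3) ^ 2 + 1)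
  refine ⟨Q1, ?_⟩
  intro q Ω hq hφ hΩ y i hi
  have hqr : (2 * N * (81 + c0 ^ 3) / c0 ^ 3) ^ 2 + 1 < (q : ℝ) :=
    hQ1.trans_le (by exact_mod_cast hq)
  have hB : 0 ≤ 2 * N * (81 + c0 ^ 3) / c0 ^ 3 := by positivity
  have hq0 : (0 : ℝ) < q := by nlinarith
  have hqpos : 0 < q := by exact_mod_cast hq0
  have hs1 : 2 * N * (81 + c0 ^ 3) / c0 ^ 3 ≤ Real.sqrt q :=
    Real.le_sqrt_of_sq_le (by linarith)
  have hs2 : 1 ≤ Real.sqrt q := Real.one_le_sqrt.2 (by nlinarith)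
  set X : ℤ := ⌈(i : ℝ) / N * q - y⌉ with hX
  set Y : ℤ := ⌈((i : ℝ) + 1) / N * q - y⌉ with hY
  have hXY : X ≤ Y := by
    apply Int.ceil_mono
    have : (i : ℝ) / N ≤ ((i : ℝ) + 1) / N := by gcongr; linarith
    nlinarith
  have hlen : (q : ℝ) / N - 1 ≤ (Y : ℝ) - X := by
    have h1 : ((i : ℝ) + 1) / N * q - y ≤ Y := Int.le_ceil _
    have h2 : (X : ℝ) < (i : ℝ) / N * q - y + 1 := Int.ceil_lt_add_one _
    have h3 : ((i : ℝ) + 1) / N * q = (i : ℝ) / N * q + q / N := by ring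
    linarith
  have hs := sieve Ω q.primeFactors (fun l hl => Nat.prime_of_mem_primeFactors hl) 1 0 one_pos
    (fun l _ => Nat.coprime_one_left l) X Y hXY
  rw [abs_le] at hs
  have hs' := hs.1
  have hcard : #{n ∈ Ico X Y | n ≡ 0 [ZMOD ((1 : ℕ) : ℤ)] ∧
      ∀ l ∈ q.primeFactors, ((n : ℤ) : ZMod l) ∉ Ω l} ≤
      #{p ∈ num y q | (∀ l ∈ q.primeFactors, ((p : ℤ) : ZMod l) ∉ Ω l) ∧
          (i : ℝ) / N ≤ ((p : ℝ) + y) / q ∧ ((p : ℝ) + y) / q < ((i : ℝ) + 1) / N} := by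
    apply card_le_card
    intro n hn
    rw [mem_filter, mem_Ico] at hn
    obtain ⟨⟨h1, h2⟩, -, h3⟩ := hn
    have h4 : (i : ℝ) / N * q - y ≤ n := Int.ceil_le.1 h1
    have h5 : (n : ℝ) < ((i : ℝ) + 1) / N * q - y := Int.lt_ceil.1 h2
    rw [mem_filter, num, mem_Ico]
    refine ⟨⟨?_, ?_⟩, h3, ?_, ?_⟩
    · apply Int.ceil_le.2
      have : 0 ≤ (i : ℝ) / N * q := by positivity
      linarith
    · have h6 : n < ⌈-y + (q : ℤ)⌉ := by
        apply Int.lt_ceil.2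
        have h7 : ((i : ℝ) + 1) / N ≤ 1 := by
          rw [div_le_one hNr]
          exact_mod_cast hi
        have h8 : ((i : ℝ) + 1) / N * q ≤ 1 * q := mul_le_mul_of_nonneg_right h7 hq0.le
        push_cast
        linarith
      rw [Int.ceil_add_intCast] at h6
      exact h6
    · rw [le_div_iff₀ hq0]; linarith
    · rw [div_lt_iff₀ hq0]; linarith
  have hcr : (#{n ∈ Ico X Y | n ≡ 0 [ZMOD ((1 : ℕ) : ℤ)] ∧
      ∀ l ∈ q.primeFactors, ((n : ℤ) : ZMod l) ∉ Ω l} : ℝ) ≤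
      (#{p ∈ num y q | (∀ l ∈ q.primeFactors, ((p : ℤ) : ZMod l) ∉ Ω l) ∧
          (i : ℝ) / N ≤ ((p : ℝ) + y) / q ∧ ((p : ℝ) + y) / q < ((i : ℝ) + 1) / N} : ℝ) := by
    exact_mod_cast hcard
  -- product bounds
  have hP1 : c0 ^ 3 ≤ ∏ l ∈ q.primeFactors, (1 - (#(Ω l) : ℝ) / l) := by
    have h1 : (∏ l ∈ q.primeFactors, (1 - 1 / (l : ℝ))) ^ 3 ≤
        ∏ l ∈ q.primeFactors, (1 - (#(Ω l) : ℝ) / l) := by
      rw [← prod_pow]
      refine prod_le_prod ?_ ?_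
      · intro l hl
        have : (1 : ℝ) ≤ l := by exact_mod_cast (Nat.prime_of_mem_primeFactors hl).one_le
        have h2 : 1 / (l : ℝ) ≤ 1 := by rw [div_le_one (by linarith)]; exact this
        exact pow_nonneg (by linarith) 3
      · intro l hl
        linarith [(hΩ l hl).2]
    have h2 : (Nat.totient q : ℝ) = q * ∏ l ∈ q.primeFactors, (1 - 1 / (l : ℝ)) := by
      have := Nat.totient_eq_mul_prod_factors q
      have h3 : ((Nat.totient q : ℚ) : ℝ) = ((q * ∏ p ∈ q.primeFactors, (1 - (p : ℚ)⁻¹) : ℚ) : ℝ) := by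
        rw [this]
      push_cast at h3
      simpa [one_div] using h3
    have h3 : c0 ≤ ∏ l ∈ q.primeFactors, (1 - 1 / (l : ℝ)) := by
      rw [h2] at hφ
      have : c0 * q ≤ (∏ l ∈ q.primeFactors, (1 - 1 / (l : ℝ))) * q := by linarith
      exact le_of_mul_le_mul_right this hq0
    exact (pow_le_pow_left₀ hc0.le h3 3).trans h1
  have hP2 : ∏ l ∈ q.primeFactors, (1 + (#(Ω l) : ℝ)) ≤ 81 * Real.sqrt q := by
    refine le_trans ?_ (three_pow_omega q hqpos)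
    rw [← prod_const]
    refine prod_le_prod (fun _ _ => by positivity) fun l hl => ?_
    have : (#(Ω l) : ℝ) ≤ 2 := by exact_mod_cast (hΩ l hl).1
    linarith
  have hPle1 : ∏ l ∈ q.primeFactors, (1 - (#(Ω l) : ℝ) / l) ≤ 1 := by
    refine prod_le_one ?_ ?_
    · intro l hl
      have h3 : (1 : ℝ) ≤ l := by exact_mod_cast (Nat.prime_of_mem_primeFactors hl).one_le
      have h2 : 1 / (l : ℝ) ≤ 1 := by rw [div_le_one (by linarith)]; exact h3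
      have h4 : 0 ≤ (1 - 1 / (l : ℝ)) ^ 3 := pow_nonneg (by linarith) 3
      linarith [(hΩ l hl).2]
    · intro l _
      have : 0 ≤ (#(Ω l) : ℝ) / l := by positivity
      linarith
  have hsq : Real.sqrt q * Real.sqrt q = q := Real.mul_self_sqrt hq0.le
  -- final estimate
  have hYX : 0 ≤ (Y : ℝ) - X := by
    have : (X : ℝ) ≤ Y := by exact_mod_cast hXY
    linarith
  have hmain : (q : ℝ) / N * c0 ^ 3 - 1 * c0 ^ 3 ≤ ((Y : ℝ) - X) / (1 : ℕ) *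
      ∏ l ∈ q.primeFactors, (1 - (#(Ω l) : ℝ) / l) := by
    rw [Nat.cast_one, div_one]
    calc (q : ℝ) / N * c0 ^ 3 - 1 * c0 ^ 3 = ((q : ℝ) / N - 1) * c0 ^ 3 := by ring
      _ ≤ ((Y : ℝ) - X) * c0 ^ 3 := mul_le_mul_of_nonneg_right hlen (by positivity)
      _ ≤ _ := mul_le_mul_of_nonneg_left hP1 hYX
  have hfin : c0 ^ 3 / 2 * q / N ≥ (81 + c0 ^ 3) * Real.sqrt q := by
    have h1 : 2 * N * (81 + c0 ^ 3) ≤ c0 ^ 3 * Real.sqrt q := by
      rw [div_le_iff₀ (by positivity)] at hs1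
      linarith
    have h2 : (2 * N * (81 + c0 ^ 3)) * Real.sqrt q ≤ c0 ^ 3 * q := by
      calc (2 * N * (81 + c0 ^ 3)) * Real.sqrt q ≤ (c0 ^ 3 * Real.sqrt q) * Real.sqrt q :=
            mul_le_mul_of_nonneg_right h1 (Real.sqrt_nonneg _)
        _ = c0 ^ 3 * q := by rw [mul_assoc, hsq]
    rw [ge_iff_le, le_div_iff₀ hNr]
    linarith
  have hfin2 : (81 + c0 ^ 3) * Real.sqrt q ≥ 81 * Real.sqrt q + c0 ^ 3 := by
    have : 0 < c0 ^ 3 := by positivity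
    nlinarith
  have e3 : (q : ℝ) / N * c0 ^ 3 = 2 * (c0 ^ 3 / 2 * q / N) := by ring
  linarith

end Pool.Agent.X152.DS
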