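import Mathlib
import Pool.Agent.X152.DS.Asm

set_option autoImplicit false

namespace Pool.Agent.X152.DS

open Finset

/-- forbidden residues: 0, and for odd l the root of v n + u -/
def Om (v : ℕ) (u : ℤ) (l : ℕ) : Finset (ZMod l) :=
  if l = 2 then {0} else {0, -(u : ZMod l) * (v : ZMod l)⁻¹}

def Adm (v : ℕ) (u : ℕ → ℤ) (q : ℕ) (p : ℤ) : Prop :=
  ∀ l ∈ q.primeFactors, ((p : ℤ) : ZMod l) ∉ Om v (u q) l

theorem Om_card (v : ℕ) (u : ℤ) (l : ℕ) (hl : l.Prime) :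
    #(Om v u l) ≤ 2 ∧ (#(Om v u l) : ℝ) / l ≤ 1 - (1 - 1 / (l : ℝ)) ^ 3 := by
  unfold Om
  split_ifs with h
  · subst h
    norm_num
  · have h2 : #({0, -(u : ZMod l) * (v : ZMod l)⁻¹} : Finset (ZMod l)) ≤ 2 := card_le_two
    refine ⟨h2, ?_⟩
    have h3 : 3 ≤ l := by
      have := hl.two_le
      omega
    have h3r : (3 : ℝ) ≤ l := by exact_mod_cast h3
    have hlr : (0 : ℝ) < l := by linarith
    have h4 : (#({0, -(u : ZMod l) * (v : ZMod l)⁻¹} : Finset (ZMod l)) : ℝ) / l ≤ 2 / l := by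
      gcongr
      exact_mod_cast h2
    refine h4.trans ?_
    set t : ℝ := 1 / l with ht
    have ht0 : 0 < t := by positivity
    have ht1 : 3 * t ≤ 1 := by
      rw [ht]
      rw [mul_one_div, div_le_one hlr]
      exact h3r
    have e : (2 : ℝ) / l = 2 * t := by rw [ht]; ring
    rw [e]
    nlinarith [mul_pos ht0 ht0]

theorem adm_gcd (v : ℕ) (u : ℕ → ℤ) (q : ℕ) (hq : 0 < q) (p : ℤ) (h : Adm v u q p) :
    Int.gcd p (q : ℤ) = 1 := by
  by_contra hne
  obtain ⟨l, hl, hd⟩ := Nat.exists_prime_and_dvd hne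
  have h1 : (l : ℤ) ∣ p := by
    have : ((l : ℕ) : ℤ) ∣ (Int.gcd p (q : ℤ) : ℤ) := by exact_mod_cast hd
    exact this.trans (Int.gcd_dvd_left ..)
  have h2 : l ∣ q := by
    have : ((l : ℕ) : ℤ) ∣ (Int.gcd p (q : ℤ) : ℤ) := by exact_mod_cast hd
    exact_mod_cast this.trans (Int.gcd_dvd_right ..)
  have h3 := h l (Nat.mem_primeFactors.2 ⟨hl, h2, hq.ne'⟩)
  apply h3
  have h4 : ((p : ℤ) : ZMod l) = 0 := (ZMod.intCast_zmod_eq_zero_iff_dvd p l).2 h1
  rw [h4]
  unfold Om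
  split_ifs <;> simp

theorem adm_odd (v : ℕ) (u : ℕ → ℤ) (q : ℕ) (hq : 0 < q) (hco : Int.gcd (u q) (v : ℤ) = 1)
    (p : ℤ) (h : Adm v u q p) (l : ℕ) (hl : l.Prime) (hl2 : l ≠ 2) (hlq : l ∣ q) :
    ¬ ((l : ℤ) ∣ v * p + u q) := by
  intro hd
  have h3 := h l (Nat.mem_primeFactors.2 ⟨hl, hlq, hq.ne'⟩)
  have : Fact l.Prime := ⟨hl⟩
  have h4 : ((v * p + u q : ℤ) : ZMod l) = 0 := (ZMod.intCast_zmod_eq_zero_iff_dvd _ l).2 hd
  push_cast at h4
  by_cases hv : (v : ZMod l) = 0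
  · rw [hv, zero_mul, zero_add] at h4
    have h5 : (l : ℤ) ∣ u q := (ZMod.intCast_zmod_eq_zero_iff_dvd _ l).1 h4
    have h6 : l ∣ v := (ZMod.natCast_eq_zero_iff v l).1 hv
    have h7 : (l : ℤ) ∣ (Int.gcd (u q) (v : ℤ) : ℤ) := Int.dvd_coe_gcd h5 (by exact_mod_cast h6)
    rw [hco] at h7
    have h8 : l ∣ 1 := by exact_mod_cast h7
    exact hl.one_lt.ne' (Nat.dvd_one.1 h8)
  · apply h3
    unfold Om
    rw [if_neg hl2, mem_insert, mem_singleton]
    right
    field_simp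
    linear_combination h4

/-- coinciding points force q and r to differ by a power of two -/
theorem two_pow_of_coincide (v : ℕ) (u : ℕ → ℤ) (q r : ℕ) (hq : 0 < q) (hr : 0 < r)
    (hcq : Int.gcd (u q) (v : ℤ) = 1) (hcr : Int.gcd (u r) (v : ℤ) = 1)
    (p s : ℤ) (hp : Adm v u q p) (hs : Adm v u r s)
    (h : (v * p + u q) * (r : ℤ) = (v * s + u r) * q) :
    (∃ k : ℕ, r = 2 ^ k * q) ∨ (∃ k : ℕ, q = 2 ^ k * r) := by
  obtain ⟨a, m, hm, hqa⟩ := Nat.exists_eq_two_pow_mul_odd hq.ne'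
  obtain ⟨b, m', hm', hrb⟩ := Nat.exists_eq_two_pow_mul_odd hr.ne'
  have cop : ∀ (x : ℤ) (t : ℕ), Odd t → (∀ l : ℕ, l.Prime → l ≠ 2 → l ∣ t → ¬ ((l : ℤ) ∣ x)) →
      IsCoprime (t : ℤ) x := by
    intro x t ht hx
    rw [Int.isCoprime_iff_gcd_eq_one]
    by_contra hne
    obtain ⟨l, hl, hd⟩ := Nat.exists_prime_and_dvd hne
    have h1 : ((l : ℕ) : ℤ) ∣ (Int.gcd (t : ℤ) x : ℤ) := by exact_mod_cast hd
    have h2 : l ∣ t := by exact_mod_cast h1.trans (Int.gcd_dvd_left ..)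
    have h3 : (l : ℤ) ∣ x := h1.trans (Int.gcd_dvd_right ..)
    refine hx l hl ?_ h2 h3
    rintro rfl
    exact (Nat.not_even_iff_odd.2 ht) (even_iff_two_dvd.2 h2)
  have hc1 : IsCoprime (m : ℤ) (v * p + u q) := cop _ m hm (fun l hl hl2 hlm =>
    adm_odd v u q hq hcq p hp l hl hl2 (hqa ▸ Dvd.dvd.mul_left hlm _))
  have hc2 : IsCoprime (m' : ℤ) (v * s + u r) := cop _ m' hm' (fun l hl hl2 hlm =>
    adm_odd v u r hr hcr s hs l hl hl2 (hrb ▸ Dvd.dvd.mul_left hlm _))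
  have h2m : IsCoprime (m : ℤ) (2 : ℤ) := cop 2 m hm (fun l hl hl2 _ hd => by
    have : l ∣ 2 := by exact_mod_cast hd
    exact hl2 ((Nat.prime_dvd_prime_iff_eq hl Nat.prime_two).1 this))
  have h2m' : IsCoprime (m' : ℤ) (2 : ℤ) := cop 2 m' hm' (fun l hl hl2 _ hd => by
    have : l ∣ 2 := by exact_mod_cast hd
    exact hl2 ((Nat.prime_dvd_prime_iff_eq hl Nat.prime_two).1 this))
  have hqZ : (q : ℤ) = 2 ^ a * m := by exact_mod_cast hqa
  have hrZ : (r : ℤ) = 2 ^ b * m' := by exact_mod_cast hrb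
  have hd1 : (m : ℤ) ∣ m' := by
    have h1 : (m : ℤ) ∣ (v * p + u q) * (2 ^ b * m') := by
      rw [← hrZ, h, hqZ]
      exact ⟨(v * s + u r) * 2 ^ a, by ring⟩
    have h2 := hc1.dvd_of_dvd_mul_left h1
    exact (h2m.pow_right).dvd_of_dvd_mul_left h2
  have hd2 : (m' : ℤ) ∣ m := by
    have h1 : (m' : ℤ) ∣ (v * s + u r) * (2 ^ a * m) := by
      rw [← hqZ, ← h, hrZ]
      exact ⟨(v * p + u q) * 2 ^ b, by ring⟩
    have h2 := hc2.dvd_of_dvd_mul_left h1
    exact (h2m'.pow_right).dvd_of_dvd_mul_left h2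
  have hmm : m = m' := Nat.dvd_antisymm (by exact_mod_cast hd1) (by exact_mod_cast hd2)
  subst hmm
  rcases le_total a b with hab | hab
  · left
    refine ⟨b - a, ?_⟩
    rw [hrb, hqa, ← mul_assoc, ← pow_add, Nat.sub_add_cancel hab]
  · right
    refine ⟨a - b, ?_⟩
    rw [hrb, hqa, ← mul_assoc, ← pow_add, Nat.sub_add_cancel hab]

open scoped Classical in
theorem sum_two_pow (W : Finset ℕ) (r : ℕ) (hW : ∀ q ∈ W, 0 < q) :
    ∑ q ∈ W.filter (fun q => q < r ∧ ∃ k : ℕ, r = 2 ^ k * q), (q : ℝ) ≤ r := by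
  set S := W.filter (fun q => q < r ∧ ∃ k : ℕ, r = 2 ^ k * q) with hS
  have hex : ∀ q : ℕ, ∃ k : ℕ, q ∈ S → r = 2 ^ k * q := by
    intro q
    by_cases h : q ∈ S
    · rw [hS, mem_filter] at h
      obtain ⟨k, hk⟩ := h.2.2
      exact ⟨k, fun _ => hk⟩
    · exact ⟨0, fun h' => absurd h' h⟩
  choose κ hκ using hex
  have hinj : Set.InjOn κ ↑S := by
    intro a ha b hb hab
    have h1 := hκ a ha
    have h2 := hκ b hb
    rw [hab] at h1
    exact Nat.eq_of_mul_eq_mul_left (by positivity : 0 < 2 ^ κ b) (h1.symm.trans h2)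
  have hgeo : ∀ n : ℕ, ∑ k ∈ Icc 1 n, (1 / 2 : ℝ) ^ k = 1 - (1 / 2) ^ n := by
    intro n
    induction n with
    | zero => simp
    | succ n ih =>
      rw [sum_Icc_succ_top (by omega), ih]
      ring
  calc ∑ q ∈ S, (q : ℝ) = ∑ q ∈ S, (r : ℝ) * (1 / 2) ^ κ q := by
        refine sum_congr rfl fun q hq => ?_
        have h1 : (r : ℝ) = 2 ^ κ q * q := by exact_mod_cast hκ q hq
        rw [h1]
        rw [one_div, inv_pow]
        field_simp
    _ = ∑ k ∈ S.image κ, (r : ℝ) * (1 / 2) ^ k :=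
        (sum_image (f := fun k : ℕ => (r : ℝ) * (1 / 2) ^ k) hinj).symm
    _ ≤ ∑ k ∈ Icc 1 r, (r : ℝ) * (1 / 2) ^ k := by
        refine sum_le_sum_of_subset_of_nonneg ?_ (fun _ _ _ => by positivity)
        intro k hk
        rw [mem_image] at hk
        obtain ⟨q, hq, rfl⟩ := hk
        have h1 := hκ q hq
        rw [hS, mem_filter] at hq
        have hq0 := hW q hq.1
        rw [mem_Icc]
        constructor
        · rcases Nat.eq_zero_or_pos (κ q) with h0 | h0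
          · rw [h0, pow_zero, one_mul] at h1
            omega
          · exact h0
        · have h2 : κ q < 2 ^ κ q := Nat.lt_two_pow_self
          have h3 : 2 ^ κ q ≤ r := by
            calc 2 ^ κ q = 2 ^ κ q * 1 := (mul_one _).symm
              _ ≤ 2 ^ κ q * q := Nat.mul_le_mul_left _ hq0
              _ = r := h1.symm
          omega
    _ = r * (1 - (1 / 2) ^ r) := by rw [← mul_sum, hgeo]
    _ ≤ r := by
        have : (0 : ℝ) ≤ (1 / 2) ^ r := by positivity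
        have h2 : (0 : ℝ) ≤ r := by positivity
        nlinarith

/-- the number of close pairs -/
noncomputable def ZZ (y ψ : ℕ → ℝ) (A : ℕ → ℤ → Prop) (q r : ℕ) : ℕ := by
  classical
  exact #{z ∈ num (y q) q ×ˢ num (y r) r | A q z.1 ∧ A r z.2 ∧
          |((z.1 : ℝ) + y q) / q - ((z.2 : ℝ) + y r) / r| < ψ q / q + ψ r / r}

theorem diag_bound (y ψ : ℕ → ℝ) (A : ℕ → ℤ → Prop) (q : ℕ) (hq : 0 < q) (h0 : 0 ≤ ψ q)
    (h1 : ψ q ≤ 1 / 2) : min (ψ q / q) (ψ q / q) * (ZZ y ψ A q q : ℝ) ≤ ψ q := by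
  classical
  have hqr : (0 : ℝ) < q := by exact_mod_cast hq
  have hc : ZZ y ψ A q q ≤ q := by
    unfold ZZ
    refine le_trans (card_le_card_of_injOn (t := num (y q) q) (fun z => z.1) ?_ ?_)
      (card_num (y q) q).le
    · intro z hz
      rw [mem_coe, mem_filter, mem_product] at hz
      exact hz.1.1
    · intro z hz w hw hzw
      rw [mem_coe, mem_filter] at hz hw
      have key : ∀ z : ℤ × ℤ, |((z.1 : ℝ) + y q) / q - ((z.2 : ℝ) + y q) / q| < ψ q / q + ψ q / q →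
          z.1 = z.2 := by
        intro z hz
        have e : ((z.1 : ℝ) + y q) / q - ((z.2 : ℝ) + y q) / q = ((z.1 - z.2 : ℤ) : ℝ) / q := by
          push_cast; ring
        rw [e, abs_div, abs_of_pos hqr, ← add_div, div_lt_div_iff_of_pos_right hqr] at hz
        have h2 : |((z.1 - z.2 : ℤ) : ℝ)| < 1 := by linarith
        have h3 : |(z.1 - z.2 : ℤ)| < 1 := by exact_mod_cast h2
        have := Int.abs_lt_one_iff.1 h3
        omega
      have a1 := key z hz.2.2.2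
      have a2 := key w hw.2.2.2
      have a3 : z.1 = w.1 := hzw
      exact Prod.ext a3 (by rw [← a1, ← a2, a3])
  rw [min_self]
  calc ψ q / q * (ZZ y ψ A q q : ℝ) ≤ ψ q / q * q := by
        refine mul_le_mul_of_nonneg_left ?_ (by positivity)
        exact_mod_cast hc
    _ = ψ q := by field_simp

theorem min_mul_sum_le (a b : ℝ) (ha : 0 ≤ a) (hb : 0 ≤ b) : min a b * (a + b) ≤ 2 * (a * b) := by
  rcases le_total a b with h | h
  · rw [min_eq_left h]; nlinarith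
  · rw [min_eq_right h]; nlinarith

/-- off-diagonal, common denominator -/
theorem off_bound_rat (v : ℕ) (hv : 0 < v) (u : ℕ → ℤ) (ψ : ℕ → ℝ) (q r : ℕ) (hq : 0 < q)
    (hr : 0 < r) (hcq : Int.gcd (u q) (v : ℤ) = 1) (hcr : Int.gcd (u r) (v : ℤ) = 1)
    (hψq : 0 ≤ ψ q) (hψr : 0 ≤ ψ r) (hqr : q < r) :
    min (ψ q / q) (ψ r / r) * (ZZ (fun q => (u q : ℝ) / v) ψ (Adm v u) q r : ℝ) ≤
      4 * v * (ψ q * ψ r) + (open scoped Classical in if (∃ k : ℕ, r = 2 ^ k * q) then ψ r / r * q else 0) := by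
  classical
  have hqR : (0 : ℝ) < q := by exact_mod_cast hq
  have hrR : (0 : ℝ) < r := by exact_mod_cast hr
  have hvR : (0 : ℝ) < v := by exact_mod_cast hv
  set y : ℕ → ℝ := fun q => (u q : ℝ) / v with hy
  set Z := ({z ∈ num (y q) q ×ˢ num (y r) r | Adm v u q z.1 ∧ Adm v u r z.2 ∧
          |((z.1 : ℝ) + y q) / q - ((z.2 : ℝ) + y r) / r| < ψ q / q + ψ r / r}) with hZ
  have hZZ : (ZZ y ψ (Adm v u) q r : ℝ) = #Z := by
    unfold ZZ
    rfl
  rw [hZZ]
  set Z1 := Z.filter (fun z => (v * z.1 + u q) * (r : ℤ) ≠ (v * z.2 + u r) * q) with hZ1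
  set Z0 := Z.filter (fun z => ¬ ((v * z.1 + u q) * (r : ℤ) ≠ (v * z.2 + u r) * q)) with hZ0
  have hsplit : (#Z : ℝ) = #Z1 + #Z0 := by
    have := card_filter_add_card_filter_not (s := Z) (fun z : ℤ × ℤ => (v * z.1 + u q) * (r : ℤ) ≠ (v * z.2 + u r) * q)
    exact_mod_cast this.symm
  have hb1 : (#Z1 : ℝ) ≤ 2 * v * ((ψ q / q + ψ r / r) * (q * r)) := by
    refine close_pairs_rat q r v hq hr hv (u q) (u r) ⌈-y q⌉ ⌈-y r⌉ _ (by positivity) Z1 ?_ ?_ ?_
    · intro z hz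
      rw [hZ1, mem_filter, hZ, mem_filter] at hz
      exact hz.1.1
    · intro z hz
      rw [hZ1, mem_filter, hZ, mem_filter] at hz
      exact hz.1.2.2.2
    · intro z hz
      rw [hZ1, mem_filter] at hz
      exact hz.2
  have hb0 : (#Z0 : ℝ) ≤ if (∃ k : ℕ, r = 2 ^ k * q) then (q : ℝ) else 0 := by
    split_ifs with hk
    · have : #Z0 ≤ q := by
        rw [← card_num (y q) q]
        refine card_le_card_of_injOn (fun z => z.1) ?_ ?_
        · intro z hz
          rw [mem_coe, hZ0, mem_filter, hZ, mem_filter, mem_product] at hz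
          exact hz.1.1.1
        · intro z hz w hw hzw
          rw [mem_coe, hZ0, mem_filter, not_not] at hz hw
          have a3 : z.1 = w.1 := hzw
          have h1 := hz.2
          have h2 := hw.2
          rw [a3] at h1
          have h3 : (v * z.2 + u r) * (q : ℤ) = (v * w.2 + u r) * q := h1.symm.trans h2
          have hqZ : (q : ℤ) ≠ 0 := by exact_mod_cast hq.ne'
          have hvZ : (v : ℤ) ≠ 0 := by exact_mod_cast hv.ne'
          have h4 := mul_right_cancel₀ hqZ h3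
          have h5 : z.2 = w.2 := mul_left_cancel₀ hvZ (by linarith)
          exact Prod.ext a3 h5
      exact_mod_cast this
    · have : Z0 = ∅ := by
        rw [eq_empty_iff_forall_notMem]
        intro z hz
        rw [hZ0, mem_filter, hZ, mem_filter, not_not] at hz
        rcases two_pow_of_coincide v u q r hq hr hcq hcr z.1 z.2 hz.1.2.1 hz.1.2.2.1 hz.2 with h | ⟨k, h⟩
        · exact hk h
        · have : r ≤ q := by
            rw [h]
            exact Nat.le_mul_of_pos_left r (by positivity)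
          omega
      rw [this]; simp
  have hmin0 : 0 ≤ min (ψ q / q) (ψ r / r) := le_min (by positivity) (by positivity)
  rw [hsplit, mul_add]
  refine add_le_add ?_ ?_
  · calc min (ψ q / q) (ψ r / r) * (#Z1 : ℝ)
        ≤ min (ψ q / q) (ψ r / r) * (2 * v * ((ψ q / q + ψ r / r) * (q * r))) :=
          mul_le_mul_of_nonneg_left hb1 hmin0
      _ = (min (ψ q / q) (ψ r / r) * (ψ q / q + ψ r / r)) * (2 * v * (q * r)) := by ring
      _ ≤ (2 * (ψ q / q * (ψ r / r))) * (2 * v * (q * r)) :=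
          mul_le_mul_of_nonneg_right (min_mul_sum_le _ _ (by positivity) (by positivity))
            (by positivity)
      _ = 4 * v * (ψ q * ψ r) := by field_simp; ring
  · calc min (ψ q / q) (ψ r / r) * (#Z0 : ℝ)
        ≤ min (ψ q / q) (ψ r / r) * (if (∃ k : ℕ, r = 2 ^ k * q) then (q : ℝ) else 0) :=
          mul_le_mul_of_nonneg_left hb0 hmin0
      _ ≤ _ := by
          split_ifs
          · exact mul_le_mul_of_nonneg_right (min_le_right _ _) hqR.le
          · simp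

/-- off-diagonal, arbitrary real shifts -/
theorem off_bound_real (y ψ : ℕ → ℝ) (A : ℕ → ℤ → Prop) (q r : ℕ) (hq : 0 < q)
    (hr : 0 < r) (hψq : 0 ≤ ψ q) (hψr : 0 ≤ ψ r) :
    min (ψ q / q) (ψ r / r) * (ZZ y ψ A q r : ℝ) ≤
      4 * (ψ q * ψ r) + ψ r / r * Nat.gcd q r := by
  classical
  have hqR : (0 : ℝ) < q := by exact_mod_cast hq
  have hrR : (0 : ℝ) < r := by exact_mod_cast hr
  set Z := ({z ∈ num (y q) q ×ˢ num (y r) r | A q z.1 ∧ A r z.2 ∧
          |((z.1 : ℝ) + y q) / q - ((z.2 : ℝ) + y r) / r| < ψ q / q + ψ r / r}) with hZ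
  have hZZ : (ZZ y ψ A q r : ℝ) = #Z := by
    unfold ZZ
    rfl
  rw [hZZ]
  have hb1 : (#Z : ℝ) ≤ 2 * ((ψ q / q + ψ r / r) * (q * r)) + Nat.gcd q r := by
    refine close_pairs q r hq hr (y q) (y r) ⌈-y q⌉ ⌈-y r⌉ _ (by positivity) Z ?_ ?_
    · intro z hz
      rw [hZ, mem_filter] at hz
      exact hz.1
    · intro z hz
      rw [hZ, mem_filter] at hz
      exact hz.2.2.2
  have hmin0 : 0 ≤ min (ψ q / q) (ψ r / r) := le_min (by positivity) (by positivity)
  calc min (ψ q / q) (ψ r / r) * (#Z : ℝ)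
      ≤ min (ψ q / q) (ψ r / r) * (2 * ((ψ q / q + ψ r / r) * (q * r)) + Nat.gcd q r) :=
        mul_le_mul_of_nonneg_left hb1 hmin0
    _ = (min (ψ q / q) (ψ r / r) * (ψ q / q + ψ r / r)) * (2 * (q * r))
        + min (ψ q / q) (ψ r / r) * Nat.gcd q r := by ring
    _ ≤ (2 * (ψ q / q * (ψ r / r))) * (2 * (q * r)) + ψ r / r * Nat.gcd q r := by
        refine add_le_add ?_ ?_
        · exact mul_le_mul_of_nonneg_right (min_mul_sum_le _ _ (by positivity) (by positivity))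
            (by positivity)
        · exact mul_le_mul_of_nonneg_right (min_le_right _ _) (by positivity)
    _ = 4 * (ψ q * ψ r) + ψ r / r * Nat.gcd q r := by field_simp; ring

theorem ZZ_symm (y ψ : ℕ → ℝ) (A : ℕ → ℤ → Prop) (q r : ℕ) : ZZ y ψ A q r = ZZ y ψ A r q := by
  classical
  unfold ZZ
  refine card_bij (fun z _ => (z.2, z.1)) ?_ ?_ ?_
  · intro z hz
    rw [mem_filter, mem_product] at hz ⊢
    refine ⟨⟨hz.1.2, hz.1.1⟩, hz.2.2.1, hz.2.1, ?_⟩
    rw [abs_sub_comm, add_comm (ψ r / r)]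
    exact hz.2.2.2
  · intro a _ b _ hab
    simp only [Prod.mk.injEq] at hab
    exact Prod.ext hab.2 hab.1
  · intro z hz
    refine ⟨(z.2, z.1), ?_, rfl⟩
    rw [mem_filter, mem_product] at hz ⊢
    refine ⟨⟨hz.1.2, hz.1.1⟩, hz.2.2.1, hz.2.1, ?_⟩
    rw [abs_sub_comm, add_comm (ψ q / q)]
    exact hz.2.2.2

theorem sum_gcd_le (r : ℕ) (hr : 0 < r) (W : Finset ℕ) (hW : ∀ q ∈ W, 0 < q ∧ q < r) :
    ∑ q ∈ W, (Nat.gcd q r : ℝ) ≤ r * #r.divisors := by
  classical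
  have h1 : ∑ q ∈ W, Nat.gcd q r ≤ ∑ q ∈ W, ∑ d ∈ r.divisors, (if d ∣ q then d else 0) := by
    refine sum_le_sum fun q _ => ?_
    have hm : Nat.gcd q r ∈ r.divisors := Nat.mem_divisors.2 ⟨Nat.gcd_dvd_right _ _, hr.ne'⟩
    calc Nat.gcd q r = if Nat.gcd q r ∣ q then Nat.gcd q r else 0 := by
          rw [if_pos (Nat.gcd_dvd_left _ _)]
      _ ≤ _ := single_le_sum (f := fun d => if d ∣ q then d else 0) (fun _ _ => Nat.zero_le _) hm
  have h2 : ∑ q ∈ W, ∑ d ∈ r.divisors, (if d ∣ q then d else 0) ≤ ∑ d ∈ r.divisors, r := by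
    rw [sum_comm]
    refine sum_le_sum fun d hd => ?_
    rw [← sum_filter, sum_const, smul_eq_mul]
    have hdpos : 0 < d := Nat.pos_of_mem_divisors hd
    have hdr : d ∣ r := Nat.dvd_of_mem_divisors hd
    have hc : #(W.filter (fun q => d ∣ q)) ≤ r / d := by
      have : W.filter (fun q => d ∣ q) ⊆ (Ioc 0 r).filter (fun q => d ∣ q) := by
        intro q hq
        rw [mem_filter] at hq ⊢
        refine ⟨?_, hq.2⟩
        rw [mem_Ioc]
        have := hW q hq.1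
        omega
      refine (card_le_card this).trans (le_of_eq ?_)
      exact Nat.Ioc_filter_dvd_card_eq_div r d
    calc #(W.filter (fun q => d ∣ q)) * d ≤ (r / d) * d := Nat.mul_le_mul_right _ hc
      _ = r := Nat.div_mul_cancel hdr
  have h3 : ∑ q ∈ W, Nat.gcd q r ≤ r * #r.divisors := by
    refine h1.trans (h2.trans (le_of_eq ?_))
    rw [sum_const, smul_eq_mul, mul_comm]
  exact_mod_cast h3

end Pool.Agent.X152.DS
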