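import Mathlib
import Pool.Agent.X152.DS.Over

set_option autoImplicit false

namespace Pool.Agent.X152.DS

open MeasureTheory Finset Filter

theorem double_sum (W : Finset ℕ) (f e : ℕ → ℕ → ℝ) (ψ E : ℕ → ℝ) (C : ℝ) (hC : 0 ≤ C)
    (hψ : ∀ q ∈ W, 0 ≤ ψ q) (hsym : ∀ q r, f q r = f r q) (hdiag : ∀ q ∈ W, f q q ≤ ψ q)
    (hoff : ∀ q ∈ W, ∀ r ∈ W, q < r → f q r ≤ C * (ψ q * ψ r) + e q r)
    (hE : ∀ r ∈ W, ∑ q ∈ W.filter (fun q => q < r), e q r ≤ E r) :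
    ∑ q ∈ W, ∑ r ∈ W, f q r ≤ ∑ q ∈ W, ψ q + 2 * C * (∑ q ∈ W, ψ q) ^ 2 + 2 * ∑ r ∈ W, E r := by
  classical
  have h1 : ∑ q ∈ W, ∑ r ∈ W, f q r = ∑ q ∈ W, f q q + 2 * ∑ q ∈ W, ∑ r ∈ W, (if q < r then f q r else 0) := by
    have e1 : ∀ q ∈ W, ∑ r ∈ W, f q r = f q q + (∑ r ∈ W, (if q < r then f q r else 0))
        + ∑ r ∈ W, (if r < q then f r q else 0) := by
      intro q hq
      have e2 : ∀ r ∈ W, f q r = (if r = q then f q q else 0) + (if q < r then f q r else 0)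
          + (if r < q then f r q else 0) := by
        intro r _
        rcases lt_trichotomy q r with h | h | h
        · rw [if_neg h.ne', if_pos h, if_neg (not_lt.2 h.le)]; ring
        · subst h; simp
        · rw [if_neg h.ne, if_neg (not_lt.2 h.le), if_pos h, hsym q r]; ring
      rw [sum_congr rfl e2, sum_add_distrib, sum_add_distrib, sum_ite_eq' W q, if_pos hq]
    rw [sum_congr rfl e1, sum_add_distrib, sum_add_distrib]
    have e3 : ∑ q ∈ W, ∑ r ∈ W, (if r < q then f r q else 0) =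
        ∑ q ∈ W, ∑ r ∈ W, (if q < r then f q r else 0) := sum_comm
    rw [e3]; ring
  have h2 : ∑ q ∈ W, ∑ r ∈ W, (if q < r then f q r else 0) ≤
      C * (∑ q ∈ W, ψ q) ^ 2 + ∑ r ∈ W, E r := by
    rw [sum_comm]
    have e4 : ∀ r ∈ W, ∑ q ∈ W, (if q < r then f q r else 0) ≤ C * ((∑ q ∈ W, ψ q) * ψ r) + E r := by
      intro r hr
      rw [← sum_filter]
      have e5 : ∑ q ∈ W.filter (fun q => q < r), f q r ≤
          ∑ q ∈ W.filter (fun q => q < r), (C * (ψ q * ψ r) + e q r) := by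
        refine sum_le_sum fun q hq => ?_
        rw [mem_filter] at hq
        exact hoff q hq.1 r hr hq.2
      refine e5.trans ?_
      rw [sum_add_distrib]
      refine add_le_add ?_ (hE r hr)
      rw [← mul_sum, ← sum_mul]
      refine mul_le_mul_of_nonneg_left (mul_le_mul_of_nonneg_right ?_ (hψ r hr)) hC
      exact sum_le_sum_of_subset_of_nonneg (filter_subset _ _) (fun q hq _ => hψ q hq)
    refine (sum_le_sum e4).trans (le_of_eq ?_)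
    rw [sum_add_distrib, ← mul_sum, ← mul_sum]
    ring
  rw [h1]
  have h3 := sum_le_sum hdiag
  linarith

theorem exists_window (f : ℕ → ℝ) (hf : ∀ q, 0 ≤ f q) (hdiv : ¬ Summable f) (K : ℕ) :
    ∃ n, 1 ≤ ∑ q ∈ Ico K n, f q := by
  have h := (not_summable_iff_tendsto_nat_atTop_of_nonneg hf).1 hdiv
  obtain ⟨n, hn, hKn⟩ := ((h.eventually_ge_atTop (1 + ∑ q ∈ range K, f q)).and
    (eventually_ge_atTop K)).exists
  refine ⟨n, ?_⟩
  have := sum_range_add_sum_Ico f hKn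
  linarith

open scoped Classical in
theorem main_rat (v : ℕ) (hv : 0 < v) (u : ℕ → ℤ) (ψ : ℕ → ℝ) (c0 : ℝ) (hc0 : 0 < c0)
    (P : ℕ → Prop) (hP : ∀ q, P q → Int.gcd (u q) (v : ℤ) = 1 ∧ c0 * q ≤ (Nat.totient q : ℝ))
    (hψ0 : ∀ q, 0 ≤ ψ q) (hψ1 : ∀ q, ψ q ≤ 1 / 2)
    (hdiv : ¬ Summable (fun q => if P q then ψ q else 0)) (Q0 : ℕ) :
    volume (Set.Ico (0 : ℝ) 1 \
      {x : ℝ | ∃ q : ℕ, Q0 ≤ q ∧ ∃ p : ℤ, Adm v u q p ∧
        |(q : ℝ) * x - p - (u q : ℝ) / v| < ψ q}) = 0 := by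
  have hvR : (0 : ℝ) < v := by exact_mod_cast hv
  refine assembly (fun q => (u q : ℝ) / v) ψ (Adm v u) Q0 (c0 ^ 3 / 2) (3 + 8 * v) (by positivity)
    (by positivity) ?_
  intro N hN
  obtain ⟨Q1, hQ1⟩ := cell_count (Om v 0) c0 hc0 N hN
  obtain ⟨n, hn⟩ := exists_window _ (fun q => by split_ifs; exacts [hψ0 q, le_rfl]) hdiv
    (max (max Q0 N) (max Q1 1))
  set W := (Ico (max (max Q0 N) (max Q1 1)) n).filter P with hW
  have hsum : 1 ≤ ∑ q ∈ W, ψ q := by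
    rw [hW, sum_filter]
    exact hn
  have hWm : ∀ q ∈ W, Q0 ≤ q ∧ N ≤ q ∧ Q1 ≤ q ∧ 0 < q ∧ P q := by
    intro q hq
    rw [hW, mem_filter, mem_Ico] at hq
    obtain ⟨⟨h1, -⟩, h2⟩ := hq
    simp only [max_le_iff] at h1
    exact ⟨h1.1.1, h1.1.2, h1.2.1, h1.2.2, h2⟩
  refine ⟨W, by linarith, ?_, ?_, ?_⟩
  · intro q hq
    exact ⟨(hWm q hq).1, (hWm q hq).2.1, hψ0 q, hψ1 q⟩
  · intro q hq i hi
    obtain ⟨-, -, h3, h4, h5⟩ := hWm q hq
    have := hQ1 q (Om v (u q)) h3 (hP q h5).2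
      (fun l hl => Om_card v (u q) l (Nat.prime_of_mem_primeFactors hl)) ((u q : ℝ) / v) i hi
    refine this.trans (Nat.cast_le.2 (card_le_card ?_))
    intro p hp
    rw [mem_filter] at hp ⊢
    exact hp
  · have hds := double_sum W (fun q r => min (ψ q / q) (ψ r / r) *
        (ZZ (fun q => (u q : ℝ) / v) ψ (Adm v u) q r : ℝ))
      (fun q r => if (∃ k : ℕ, r = 2 ^ k * q) then ψ r / r * q else 0) ψ ψ (4 * v) (by positivity)
      (fun q _ => hψ0 q) ?_ ?_ ?_ ?_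
    · refine le_trans (le_of_eq ?_) (hds.trans ?_)
      · refine sum_congr rfl fun q _ => sum_congr rfl fun r _ => ?_
        unfold ZZ
        rfl
      · nlinarith
    · intro q r
      rw [min_comm, ZZ_symm]
    · intro q hq
      exact diag_bound _ ψ _ q (hWm q hq).2.2.2.1 (hψ0 q) (hψ1 q)
    · intro q hq r hr hqr
      exact off_bound_rat v hv u ψ q r (hWm q hq).2.2.2.1 (hWm r hr).2.2.2.1
        (hP q (hWm q hq).2.2.2.2).1 (hP r (hWm r hr).2.2.2.2).1 (hψ0 q) (hψ0 r) hqr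
    · intro r hr
      have hr0 : (0 : ℝ) < r := by exact_mod_cast (hWm r hr).2.2.2.1
      rw [← sum_filter, filter_filter, ← mul_sum]
      have := sum_two_pow W r (fun q hq => (hWm q hq).2.2.2.1)
      calc ψ r / r * ∑ q ∈ W.filter (fun q => q < r ∧ ∃ k : ℕ, r = 2 ^ k * q), (q : ℝ)
          ≤ ψ r / r * r := mul_le_mul_of_nonneg_left this (div_nonneg (hψ0 r) hr0.le)
        _ = ψ r := by field_simp

def Cop (q : ℕ) (p : ℤ) : Prop := ∀ l ∈ q.primeFactors, ((p : ℤ) : ZMod l) ∉ ({0} : Finset (ZMod l))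

theorem cop_gcd (q : ℕ) (hq : 0 < q) (p : ℤ) (h : Cop q p) : Int.gcd p (q : ℤ) = 1 := by
  by_contra hne
  obtain ⟨l, hl, hd⟩ := Nat.exists_prime_and_dvd hne
  have h0 : ((l : ℕ) : ℤ) ∣ (Int.gcd p (q : ℤ) : ℤ) := by exact_mod_cast hd
  have h1 : (l : ℤ) ∣ p := h0.trans (Int.gcd_dvd_left ..)
  have h2 : l ∣ q := by exact_mod_cast h0.trans (Int.gcd_dvd_right ..)
  have h3 := h l (Nat.mem_primeFactors.2 ⟨hl, h2, hq.ne'⟩)
  apply h3
  rw [mem_singleton]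
  exact (ZMod.intCast_zmod_eq_zero_iff_dvd p l).2 h1

theorem zero_card (l : ℕ) (hl : l.Prime) :
    #({0} : Finset (ZMod l)) ≤ 2 ∧ (#({0} : Finset (ZMod l)) : ℝ) / l ≤ 1 - (1 - 1 / (l : ℝ)) ^ 3 := by
  refine ⟨by simp, ?_⟩
  rw [card_singleton, Nat.cast_one]
  have h2 : (2 : ℝ) ≤ l := by exact_mod_cast hl.two_le
  set t : ℝ := 1 / l with ht
  have ht0 : 0 < t := by positivity
  have ht1 : 2 * t ≤ 1 := by
    rw [ht, mul_one_div, div_le_one (by linarith)]; exact h2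
  nlinarith [mul_pos ht0 ht0]

open scoped Classical in
theorem main_real (y ψ : ℕ → ℝ) (c0 C : ℝ) (hc0 : 0 < c0) (hC : 0 ≤ C)
    (hψ0 : ∀ q, 0 ≤ ψ q) (hψ1 : ∀ q, ψ q ≤ 1 / 2)
    (hwin : ∀ K : ℕ, ∃ W : Finset ℕ, (∀ q ∈ W, K ≤ q ∧ c0 * q ≤ (Nat.totient q : ℝ)) ∧
      1 ≤ ∑ q ∈ W, ψ q ∧ ∑ q ∈ W, (#q.divisors : ℝ) * ψ q ≤ C * (∑ q ∈ W, ψ q) ^ 2) (Q0 : ℕ) :
    volume (Set.Ico (0 : ℝ) 1 \
      {x : ℝ | ∃ q : ℕ, Q0 ≤ q ∧ ∃ p : ℤ, Cop q p ∧ |(q : ℝ) * x - p - y q| < ψ q}) = 0 := by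
  refine assembly y ψ Cop Q0 (c0 ^ 3 / 2) (9 + 2 * C) (by positivity) (by positivity) ?_
  intro N hN
  obtain ⟨Q1, hQ1⟩ := cell_count (fun _ => {0}) c0 hc0 N hN
  obtain ⟨W, hWm', hsum, hdivs⟩ := hwin (max (max Q0 N) (max Q1 1))
  have hWm : ∀ q ∈ W, Q0 ≤ q ∧ N ≤ q ∧ Q1 ≤ q ∧ 0 < q ∧ c0 * q ≤ (Nat.totient q : ℝ) := by
    intro q hq
    obtain ⟨h1, h2⟩ := hWm' q hq
    simp only [max_le_iff] at h1
    exact ⟨h1.1.1, h1.1.2, h1.2.1, h1.2.2, h2⟩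
  refine ⟨W, by linarith, ?_, ?_, ?_⟩
  · intro q hq
    exact ⟨(hWm q hq).1, (hWm q hq).2.1, hψ0 q, hψ1 q⟩
  · intro q hq i hi
    obtain ⟨-, -, h3, h4, h5⟩ := hWm q hq
    have := hQ1 q (fun _ => {0}) h3 h5
      (fun l hl => zero_card l (Nat.prime_of_mem_primeFactors hl)) (y q) i hi
    refine this.trans (Nat.cast_le.2 (card_le_card ?_))
    intro p hp
    rw [mem_filter] at hp ⊢
    exact hp
  · have hds := double_sum W (fun q r => min (ψ q / q) (ψ r / r) * (ZZ y ψ Cop q r : ℝ))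
      (fun q r => ψ r / r * Nat.gcd q r) ψ (fun r => (#r.divisors : ℝ) * ψ r) 4 (by positivity)
      (fun q _ => hψ0 q) ?_ ?_ ?_ ?_
    · refine le_trans (le_of_eq ?_) (hds.trans ?_)
      · refine sum_congr rfl fun q _ => sum_congr rfl fun r _ => ?_
        unfold ZZ
        rfl
      · nlinarith
    · intro q r
      rw [min_comm, ZZ_symm]
    · intro q hq
      exact diag_bound _ ψ _ q (hWm q hq).2.2.2.1 (hψ0 q) (hψ1 q)
    · intro q hq r hr hqr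
      exact off_bound_real y ψ Cop q r (hWm q hq).2.2.2.1 (hWm r hr).2.2.2.1 (hψ0 q) (hψ0 r)
    · intro r hr
      have hr0 : (0 : ℝ) < r := by exact_mod_cast (hWm r hr).2.2.2.1
      rw [← mul_sum]
      have := sum_gcd_le r (hWm r hr).2.2.2.1 (W.filter (fun q => q < r)) (fun q hq => by
        rw [mem_filter] at hq
        exact ⟨(hWm q hq.1).2.2.2.1, hq.2⟩)
      calc ψ r / r * ∑ q ∈ W.filter (fun q => q < r), (Nat.gcd q r : ℝ)
          ≤ ψ r / r * (r * #r.divisors) := mul_le_mul_of_nonneg_left this (div_nonneg (hψ0 r) hr0.le)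
        _ = (#r.divisors : ℝ) * ψ r := by field_simp

/-- from tails to the limsup set -/
theorem limsup_of_tails (R : ℕ → ℝ → Prop)
    (h : ∀ Q0 : ℕ, volume (Set.Ico (0 : ℝ) 1 \ {x : ℝ | ∃ q : ℕ, Q0 ≤ q ∧ R q x}) = 0) :
    volume {x : ℝ | x ∈ Set.Icc (0 : ℝ) 1 ∧ ∃ᶠ q : ℕ in atTop, R q x} = 1 := by
  have hnull : volume (Set.Icc (0 : ℝ) 1 \ {x : ℝ | x ∈ Set.Icc (0 : ℝ) 1 ∧ ∃ᶠ q : ℕ in atTop, R q x}) = 0 := by
    have hsub : Set.Icc (0 : ℝ) 1 \ {x : ℝ | x ∈ Set.Icc (0 : ℝ) 1 ∧ ∃ᶠ q : ℕ in atTop, R q x} ⊆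
        (⋃ Q0 : ℕ, (Set.Ico (0 : ℝ) 1 \ {x : ℝ | ∃ q : ℕ, Q0 ≤ q ∧ R q x})) ∪ {1} := by
      rintro x ⟨hx, hx2⟩
      by_cases h1 : x = 1
      · right; exact h1
      · left
        have h3 : ¬ ∃ᶠ q : ℕ in atTop, R q x := fun h4 => hx2 ⟨hx, h4⟩
        rw [frequently_atTop] at h3
        push Not at h3
        obtain ⟨Q0, hQ0⟩ := h3
        rw [Set.mem_iUnion]
        refine ⟨Q0, ⟨hx.1, lt_of_le_of_ne hx.2 h1⟩, ?_⟩
        rintro ⟨q, hq, hR⟩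
        exact hQ0 q hq hR
    refine measure_mono_null hsub (measure_union_null ?_ (by simp))
    exact measure_iUnion_null h
  have h1 : volume (Set.Icc (0 : ℝ) 1) ≤
      volume {x : ℝ | x ∈ Set.Icc (0 : ℝ) 1 ∧ ∃ᶠ q : ℕ in atTop, R q x} + 0 := by
    rw [← hnull]
    refine le_trans (measure_mono ?_) (measure_union_le _ _)
    intro x hx
    by_cases h2 : x ∈ {x : ℝ | x ∈ Set.Icc (0 : ℝ) 1 ∧ ∃ᶠ q : ℕ in atTop, R q x}
    · left; exact h2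
    · right; exact ⟨hx, h2⟩
  have h2 : volume {x : ℝ | x ∈ Set.Icc (0 : ℝ) 1 ∧ ∃ᶠ q : ℕ in atTop, R q x} ≤
      volume (Set.Icc (0 : ℝ) 1) := measure_mono (fun x hx => hx.1)
  have h3 : volume (Set.Icc (0 : ℝ) 1) = 1 := by simp
  rw [h3] at h1 h2
  rw [add_zero] at h1
  exact le_antisymm h2 h1

end Pool.Agent.X152.DS
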