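import Mathlib
import Pool.Agent.X152.DS.Main

set_option autoImplicit false

namespace Pool.Agent.X152.DS

open MeasureTheory Finset Filter

/-- off-diagonal, arbitrary real shifts, refined -/
theorem off_bound_real' (y ψ : ℕ → ℝ) (A : ℕ → ℤ → Prop) (q r : ℕ) (hq : 0 < q)
    (hr : 0 < r) (hψq : 0 ≤ ψ q) (hψr : 0 ≤ ψ r) :
    min (ψ q / q) (ψ r / r) * (ZZ y ψ A q r : ℝ) ≤
      6 * (ψ q * ψ r) + 3 * (ψ r / r * (if ψ r * q < Nat.gcd q r then (Nat.gcd q r : ℝ) else 0)) := by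
  classical
  have hqR : (0 : ℝ) < q := by exact_mod_cast hq
  have hrR : (0 : ℝ) < r := by exact_mod_cast hr
  set Z := ({z ∈ num (y q) q ×ˢ num (y r) r | A q z.1 ∧ A r z.2 ∧
          |((z.1 : ℝ) + y q) / q - ((z.2 : ℝ) + y r) / r| < ψ q / q + ψ r / r}) with hZ
  have hZZ : (ZZ y ψ A q r : ℝ) = #Z := by
    unfold ZZ
    rfl
  rw [hZZ]
  have hb1 : (#Z : ℝ) ≤ 2 * ((ψ q / q + ψ r / r) * (q * r)) + Nat.gcd q r := by
    refine close_pairs q r hq hr (y q) (y r) ⌈-y q⌉ ⌈-y r⌉ _ (by positivity) Z ?_ ?_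
    · intro z hz
      rw [hZ, mem_filter] at hz
      exact hz.1
    · intro z hz
      rw [hZ, mem_filter] at hz
      exact hz.2.2.2
  have hmin0 : 0 ≤ min (ψ q / q) (ψ r / r) := le_min (by positivity) (by positivity)
  have hT : (ψ q / q + ψ r / r) * (q * r) = ψ q * r + ψ r * q := by field_simp
  have hgR : (0 : ℝ) ≤ Nat.gcd q r := by positivity
  by_cases hbig : (Nat.gcd q r : ℝ) ≤ (ψ q / q + ψ r / r) * (q * r)
  · have h2 : (#Z : ℝ) ≤ 3 * ((ψ q / q + ψ r / r) * (q * r)) := by linarith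
    have h3 : 0 ≤ 3 * (ψ r / r * (if ψ r * q < Nat.gcd q r then (Nat.gcd q r : ℝ) else 0)) := by
      split_ifs <;> positivity
    calc min (ψ q / q) (ψ r / r) * (#Z : ℝ)
        ≤ min (ψ q / q) (ψ r / r) * (3 * ((ψ q / q + ψ r / r) * (q * r))) :=
          mul_le_mul_of_nonneg_left h2 hmin0
      _ = (min (ψ q / q) (ψ r / r) * (ψ q / q + ψ r / r)) * (3 * (q * r)) := by ring
      _ ≤ (2 * (ψ q / q * (ψ r / r))) * (3 * (q * r)) :=
          mul_le_mul_of_nonneg_right (min_mul_sum_le _ _ (by positivity) (by positivity))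
            (by positivity)
      _ = 6 * (ψ q * ψ r) := by field_simp; ring
      _ ≤ _ := by linarith
  · rw [not_le] at hbig
    have h2 : (#Z : ℝ) ≤ 3 * Nat.gcd q r := by linarith
    have h4 : ψ r * q < Nat.gcd q r := by
      rw [hT] at hbig
      have : 0 ≤ ψ q * r := by positivity
      linarith
    rw [if_pos h4]
    have h5 : 0 ≤ 6 * (ψ q * ψ r) := by positivity
    calc min (ψ q / q) (ψ r / r) * (#Z : ℝ)
        ≤ min (ψ q / q) (ψ r / r) * (3 * Nat.gcd q r) := mul_le_mul_of_nonneg_left h2 hmin0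
      _ ≤ ψ r / r * (3 * Nat.gcd q r) :=
          mul_le_mul_of_nonneg_right (min_le_right _ _) (by positivity)
      _ = 3 * (ψ r / r * Nat.gcd q r) := by ring
      _ ≤ _ := by linarith

theorem sum_gcd_le' (r : ℕ) (hr : 0 < r) (t : ℝ) (ht : 0 ≤ t) (W : Finset ℕ)
    (hW : ∀ q ∈ W, 0 < q ∧ q < r) :
    t / r * ∑ q ∈ W, (if t * q < Nat.gcd q r then (Nat.gcd q r : ℝ) else 0) ≤
      ∑ d ∈ r.divisors, min t (1 / (d : ℝ)) := by
  classical
  have hrR : (0 : ℝ) < r := by exact_mod_cast hr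
  rcases ht.eq_or_lt with h | htpos
  · rw [← h]
    simp only [zero_div, zero_mul]
    exact sum_nonneg fun d _ => le_min le_rfl (by positivity)
  have h1 : ∑ q ∈ W, (if t * q < Nat.gcd q r then (Nat.gcd q r : ℝ) else 0) ≤
      ∑ q ∈ W, ∑ g ∈ r.divisors, (if g ∣ q ∧ t * q < g then (g : ℝ) else 0) := by
    refine sum_le_sum fun q _ => ?_
    have hm : Nat.gcd q r ∈ r.divisors := Nat.mem_divisors.2 ⟨Nat.gcd_dvd_right _ _, hr.ne'⟩
    calc (if t * q < Nat.gcd q r then (Nat.gcd q r : ℝ) else 0)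
        = if Nat.gcd q r ∣ q ∧ t * q < Nat.gcd q r then (Nat.gcd q r : ℝ) else 0 := by
          have : Nat.gcd q r ∣ q := Nat.gcd_dvd_left _ _
          simp [this]
      _ ≤ _ := single_le_sum (f := fun g : ℕ => if g ∣ q ∧ t * q < g then (g : ℝ) else 0)
          (fun _ _ => by split_ifs <;> positivity) hm
  have h2 : ∑ q ∈ W, ∑ g ∈ r.divisors, (if g ∣ q ∧ t * q < g then (g : ℝ) else 0) ≤
      ∑ g ∈ r.divisors, min (r : ℝ) (g / t) := by
    rw [sum_comm]
    refine sum_le_sum fun g hg => ?_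
    rw [← sum_filter, sum_const, nsmul_eq_mul]
    have hgpos : 0 < g := Nat.pos_of_mem_divisors hg
    have hgR : (0 : ℝ) < g := by exact_mod_cast hgpos
    have hgr : g ∣ r := Nat.dvd_of_mem_divisors hg
    refine le_min ?_ ?_
    · have hc : #(W.filter (fun q => g ∣ q ∧ t * q < g)) ≤ r / g := by
        have : W.filter (fun q => g ∣ q ∧ t * q < g) ⊆ (Ioc 0 r).filter (fun q => g ∣ q) := by
          intro q hq
          rw [mem_filter] at hq ⊢
          refine ⟨?_, hq.2.1⟩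
          rw [mem_Ioc]
          have := hW q hq.1
          omega
        refine (card_le_card this).trans (le_of_eq ?_)
        exact Nat.Ioc_filter_dvd_card_eq_div r g
      have h3 : #(W.filter (fun q => g ∣ q ∧ t * q < g)) * g ≤ r :=
        (Nat.mul_le_mul_right _ hc).trans (Nat.div_mul_cancel hgr).le
      exact_mod_cast h3
    · -- multiples g m with m ≤ 1/t
      have hinj : Set.InjOn (fun q : ℕ => q / g) ↑(W.filter (fun q => g ∣ q ∧ t * q < g)) := by
        intro a ha b hb hab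
        rw [mem_coe, mem_filter] at ha hb
        have h3 : a / g = b / g := hab
        calc a = g * (a / g) := (Nat.mul_div_cancel' ha.2.1).symm
          _ = g * (b / g) := by rw [h3]
          _ = b := Nat.mul_div_cancel' hb.2.1
      have hc : #(W.filter (fun q => g ∣ q ∧ t * q < g)) ≤ ⌊1 / t⌋₊ := by
        rw [← card_image_of_injOn hinj]
        have : (W.filter (fun q => g ∣ q ∧ t * q < g)).image (fun q : ℕ => q / g) ⊆ Icc 1 ⌊1 / t⌋₊ := by
          intro m hm
          rw [mem_image] at hm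
          obtain ⟨q, hq, rfl⟩ := hm
          rw [mem_filter] at hq
          obtain ⟨hqW, hgq, hlt⟩ := hq
          have h4 : (q : ℝ) = g * ((q / g : ℕ) : ℝ) := by
            exact_mod_cast (Nat.mul_div_cancel' hgq).symm
          rw [mem_Icc]
          constructor
          · exact Nat.div_pos (Nat.le_of_dvd (hW q hqW).1 hgq) hgpos
          · apply Nat.le_floor
            rw [le_div_iff₀ htpos]
            rw [h4] at hlt
            have h5 : g * (t * ((q / g : ℕ) : ℝ)) < g * 1 := by linarith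
            have h6 := lt_of_mul_lt_mul_left h5 hgR.le
            linarith
        refine (card_le_card this).trans ?_
        rw [Nat.card_Icc]
        omega
      calc (#(W.filter (fun q => g ∣ q ∧ t * q < g)) : ℝ) * g ≤ (⌊1 / t⌋₊ : ℝ) * g := by
            gcongr
        _ ≤ (1 / t) * g := by
            gcongr
            exact Nat.floor_le (by positivity)
        _ = g / t := by ring
  calc t / r * ∑ q ∈ W, (if t * q < Nat.gcd q r then (Nat.gcd q r : ℝ) else 0)
      ≤ t / r * ∑ g ∈ r.divisors, min (r : ℝ) (g / t) :=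
        mul_le_mul_of_nonneg_left (h1.trans h2) (by positivity)
    _ = ∑ g ∈ r.divisors, min t (1 / ((r / g : ℕ) : ℝ)) := by
        rw [mul_sum]
        refine sum_congr rfl fun g hg => ?_
        have hgpos : 0 < g := Nat.pos_of_mem_divisors hg
        have hgR : (0 : ℝ) < g := by exact_mod_cast hgpos
        have hgr : g ∣ r := Nat.dvd_of_mem_divisors hg
        rw [Nat.cast_div hgr hgR.ne', mul_min_of_nonneg _ _ (by positivity)]
        congr 1
        · field_simp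
        · field_simp
    _ = ∑ d ∈ r.divisors, min t (1 / (d : ℝ)) :=
        Nat.sum_div_divisors r (fun d => min t (1 / (d : ℝ)))

open scoped Classical in
theorem main_real' (y ψ : ℕ → ℝ) (c0 C : ℝ) (hc0 : 0 < c0) (hC : 0 ≤ C)
    (hψ0 : ∀ q, 0 ≤ ψ q) (hψ1 : ∀ q, ψ q ≤ 1 / 2)
    (hwin : ∀ K : ℕ, ∃ W : Finset ℕ, (∀ q ∈ W, K ≤ q ∧ c0 * q ≤ (Nat.totient q : ℝ)) ∧
      1 ≤ ∑ q ∈ W, ψ q ∧
      ∑ q ∈ W, ∑ d ∈ q.divisors, min (ψ q) (1 / (d : ℝ)) ≤ C * (∑ q ∈ W, ψ q) ^ 2) (Q0 : ℕ) :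
    volume (Set.Ico (0 : ℝ) 1 \
      {x : ℝ | ∃ q : ℕ, Q0 ≤ q ∧ ∃ p : ℤ, Cop q p ∧ |(q : ℝ) * x - p - y q| < ψ q}) = 0 := by
  refine assembly y ψ Cop Q0 (c0 ^ 3 / 2) (13 + 6 * C) (by positivity) (by positivity) ?_
  intro N hN
  obtain ⟨Q1, hQ1⟩ := cell_count (fun _ => {0}) c0 hc0 N hN
  obtain ⟨W, hWm', hsum, hdivs⟩ := hwin (max (max Q0 N) (max Q1 1))
  have hWm : ∀ q ∈ W, Q0 ≤ q ∧ N ≤ q ∧ Q1 ≤ q ∧ 0 < q ∧ c0 * q ≤ (Nat.totient q : ℝ) := by
    intro q hq
    obtain ⟨h1, h2⟩ := hWm' q hq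
    simp only [max_le_iff] at h1
    exact ⟨h1.1.1, h1.1.2, h1.2.1, h1.2.2, h2⟩
  refine ⟨W, by linarith, ?_, ?_, ?_⟩
  · intro q hq
    exact ⟨(hWm q hq).1, (hWm q hq).2.1, hψ0 q, hψ1 q⟩
  · intro q hq i hi
    obtain ⟨-, -, h3, h4, h5⟩ := hWm q hq
    have := hQ1 q (fun _ => {0}) h3 h5
      (fun l hl => zero_card l (Nat.prime_of_mem_primeFactors hl)) (y q) i hi
    refine this.trans (Nat.cast_le.2 (card_le_card ?_))
    intro p hp
    rw [mem_filter] at hp ⊢
    exact hp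
  · have hds := double_sum W (fun q r => min (ψ q / q) (ψ r / r) * (ZZ y ψ Cop q r : ℝ))
      (fun q r => 3 * (ψ r / r * (if ψ r * q < Nat.gcd q r then (Nat.gcd q r : ℝ) else 0))) ψ
      (fun r => 3 * ∑ d ∈ r.divisors, min (ψ r) (1 / (d : ℝ))) 6 (by positivity)
      (fun q _ => hψ0 q) ?_ ?_ ?_ ?_
    · refine le_trans (le_of_eq ?_) (hds.trans ?_)
      · refine sum_congr rfl fun q _ => sum_congr rfl fun r _ => ?_
        unfold ZZ
        rfl
      · rw [← mul_sum]
        nlinarith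
    · intro q r
      rw [min_comm, ZZ_symm]
    · intro q hq
      exact diag_bound _ ψ _ q (hWm q hq).2.2.2.1 (hψ0 q) (hψ1 q)
    · intro q hq r hr hqr
      exact off_bound_real' y ψ Cop q r (hWm q hq).2.2.2.1 (hWm r hr).2.2.2.1 (hψ0 q) (hψ0 r)
    · intro r hr
      rw [← mul_sum, ← mul_sum]
      refine mul_le_mul_of_nonneg_left ?_ (by norm_num)
      exact sum_gcd_le' r (hWm r hr).2.2.2.1 (ψ r) (hψ0 r) (W.filter (fun q => q < r)) (fun q hq => by
        rw [mem_filter] at hq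
        exact ⟨(hWm q hq.1).2.2.2.1, hq.2⟩)

end Pool.Agent.X152.DS
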