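import Mathlib
import Pool.Agent.X152.DS.Real

set_option autoImplicit false

namespace Pool.Agent.X152.DS

open MeasureTheory Finset Filter

theorem thin_part (ψ : ℕ → ℝ) (hψ : ∀ q, 0 ≤ ψ q) (c : ℝ) (Q : ℕ)
    (h : c * (∑ q ∈ Icc 1 Q, ψ q) ≤ ∑ q ∈ Icc 1 Q, (Nat.totient q : ℝ) * ψ q / (q : ℝ)) :
    (∑ q ∈ Icc 1 Q, (Nat.totient q : ℝ) * ψ q / (q : ℝ)) / 2 ≤
      ∑ q ∈ (Icc 1 Q).filter (fun q : ℕ => c / 2 * (q : ℝ) ≤ (Nat.totient q : ℝ)), ψ q := by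
  classical
  have h1 : ∑ q ∈ Icc 1 Q, (Nat.totient q : ℝ) * ψ q / (q : ℝ) ≤
      ∑ q ∈ (Icc 1 Q).filter (fun q : ℕ => c / 2 * (q : ℝ) ≤ (Nat.totient q : ℝ)), ψ q
        + c / 2 * ∑ q ∈ (Icc 1 Q).filter (fun q : ℕ => ¬ (c / 2 * (q : ℝ) ≤ (Nat.totient q : ℝ))), ψ q := by
    rw [← sum_filter_add_sum_filter_not (Icc 1 Q) (fun q : ℕ => c / 2 * (q : ℝ) ≤ (Nat.totient q : ℝ))]
    refine add_le_add ?_ ?_
    · refine sum_le_sum fun q hq => ?_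
      rw [mem_filter, mem_Icc] at hq
      have hq0 : (0 : ℝ) < q := by exact_mod_cast hq.1.1
      have h2 : (Nat.totient q : ℝ) ≤ q := by exact_mod_cast Nat.totient_le q
      rw [div_le_iff₀ hq0, mul_comm (ψ q)]
      exact mul_le_mul_of_nonneg_right h2 (hψ q)
    · rw [mul_sum]
      refine sum_le_sum fun q hq => ?_
      rw [mem_filter, mem_Icc, not_le] at hq
      have hq0 : (0 : ℝ) < q := by exact_mod_cast hq.1.1
      rw [div_le_iff₀ hq0]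
      calc (Nat.totient q : ℝ) * ψ q ≤ (c / 2 * q) * ψ q :=
            mul_le_mul_of_nonneg_right hq.2.le (hψ q)
        _ = c / 2 * ψ q * q := by ring
  rcases le_total c 0 with hc | hc
  · have h3 : c / 2 * ∑ q ∈ (Icc 1 Q).filter (fun q : ℕ => ¬ (c / 2 * (q : ℝ) ≤ (Nat.totient q : ℝ))), ψ q ≤ 0 :=
      mul_nonpos_of_nonpos_of_nonneg (by linarith) (sum_nonneg fun q _ => hψ q)
    have h4 : 0 ≤ ∑ q ∈ Icc 1 Q, (Nat.totient q : ℝ) * ψ q / (q : ℝ) :=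
      sum_nonneg fun q _ => div_nonneg (mul_nonneg (by positivity) (hψ q)) (by positivity)
    linarith
  · have h3 : c / 2 * ∑ q ∈ (Icc 1 Q).filter (fun q : ℕ => ¬ (c / 2 * (q : ℝ) ≤ (Nat.totient q : ℝ))), ψ q ≤
        c / 2 * ∑ q ∈ Icc 1 Q, ψ q :=
      mul_le_mul_of_nonneg_left
        (sum_le_sum_of_subset_of_nonneg (filter_subset _ _) (fun q _ _ => hψ q)) (by linarith)
    linarith

theorem partial_unbounded (ψ : ℕ → ℝ) (hψ : ∀ q, 0 ≤ ψ q)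
    (hdiv : ¬ Summable (fun q : ℕ => (Nat.totient q : ℝ) * ψ q / (q : ℝ))) (B : ℝ) :
    ∀ᶠ Q in atTop, B ≤ ∑ q ∈ Icc 1 Q, (Nat.totient q : ℝ) * ψ q / (q : ℝ) := by
  have h := (not_summable_iff_tendsto_nat_atTop_of_nonneg (fun q =>
    div_nonneg (mul_nonneg (Nat.cast_nonneg _) (hψ q)) (Nat.cast_nonneg q))).1 hdiv
  have h2 := (tendsto_add_atTop_iff_nat 1).2 h
  filter_upwards [h2.eventually_ge_atTop B] with Q hQ
  refine hQ.trans (le_of_eq ?_)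
  rw [range_eq_Ico, sum_eq_sum_Ico_succ_bot (by omega)]
  simp only [Nat.totient_zero, Nat.cast_zero, zero_mul, zero_div, zero_add]
  rfl

theorem not_summable_thin (ψ : ℕ → ℝ) (hψ : ∀ q, 0 ≤ ψ q)
    (hdiv : ¬ Summable (fun q : ℕ => (Nat.totient q : ℝ) * ψ q / (q : ℝ))) (c : ℝ)
    (hcomp : ∃ᶠ Q : ℕ in atTop, c * (∑ q ∈ Icc 1 Q, ψ q) ≤
      ∑ q ∈ Icc 1 Q, (Nat.totient q : ℝ) * ψ q / (q : ℝ)) :
    ¬ Summable (fun q : ℕ => if c / 2 * (q : ℝ) ≤ (Nat.totient q : ℝ) then min (ψ q) (1 / 2) else 0) := by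
  classical
  intro hs
  have hg : Summable (fun q : ℕ => if c / 2 * (q : ℝ) ≤ (Nat.totient q : ℝ) then ψ q else 0) := by
    have h0 := hs.tendsto_atTop_zero
    have h1 : ∀ᶠ q : ℕ in atTop, (if c / 2 * (q : ℝ) ≤ (Nat.totient q : ℝ) then min (ψ q) (1 / 2) else 0) < 1 / 2 :=
      h0.eventually (gt_mem_nhds (by norm_num))
    refine (summable_congr_cofinite ?_).1 hs
    rw [Nat.cofinite_eq_atTop]
    filter_upwards [h1] with q hq
    split_ifs at hq ⊢ with h2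
    · rcases min_lt_iff.1 hq with h3 | h3
      · exact min_eq_left h3.le
      · exact absurd h3 (lt_irrefl _)
    · rfl
  obtain ⟨Q, hQ1, hQ2⟩ := (hcomp.and_eventually (partial_unbounded ψ hψ hdiv
    (2 * (∑' q : ℕ, if c / 2 * (q : ℝ) ≤ (Nat.totient q : ℝ) then ψ q else 0) + 1))).exists
  have h1 := thin_part ψ hψ c Q hQ1
  have h2 : ∑ q ∈ (Icc 1 Q).filter (fun q : ℕ => c / 2 * (q : ℝ) ≤ (Nat.totient q : ℝ)), ψ q ≤
      ∑' q : ℕ, if c / 2 * (q : ℝ) ≤ (Nat.totient q : ℝ) then ψ q else 0 := by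
    rw [sum_filter]
    exact hg.sum_le_tsum _ (fun q _ => by split_ifs; exacts [hψ q, le_rfl])
  linarith

theorem thm_rat (V : ℕ) (hV : 0 < V) (y : ℕ → ℚ) (hy : ∀ q, (y q).den ∣ V) (ψ : ℕ → ℝ)
    (hψ : ∀ q, 0 ≤ ψ q) (hdiv : ¬ Summable (fun q : ℕ => (Nat.totient q : ℝ) * ψ q / (q : ℝ)))
    (hcomp : ∃ c : ℝ, 0 < c ∧ ∃ᶠ Q : ℕ in atTop, c * (∑ q ∈ Icc 1 Q, ψ q) ≤
      ∑ q ∈ Icc 1 Q, (Nat.totient q : ℝ) * ψ q / (q : ℝ)) :
    volume {x : ℝ | x ∈ Set.Icc (0 : ℝ) 1 ∧ ∃ᶠ q : ℕ in atTop, ∃ p : ℤ, Int.gcd p (q : ℤ) = 1 ∧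
      |(q : ℝ) * x - (p : ℝ) - (y q : ℝ)| < ψ q} = 1 := by
  classical
  obtain ⟨c, hc, hcomp⟩ := hcomp
  have hns := not_summable_thin ψ hψ hdiv c hcomp
  -- pigeonhole over denominators
  obtain ⟨v, hvV, hv⟩ : ∃ v ∈ V.divisors, ¬ Summable (fun q : ℕ =>
      if (c / 2 * (q : ℝ) ≤ (Nat.totient q : ℝ) ∧ (y q).den = v) then min (ψ q) (1 / 2) else 0) := by
    by_contra hcon
    push Not at hcon
    apply hns
    have h1 := summable_sum hcon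
    refine h1.congr fun q => ?_
    by_cases hq : c / 2 * (q : ℝ) ≤ (Nat.totient q : ℝ)
    · rw [if_pos hq]
      have : ∀ v ∈ V.divisors, (if (c / 2 * (q : ℝ) ≤ (Nat.totient q : ℝ) ∧ (y q).den = v)
          then min (ψ q) (1 / 2) else 0) = if v = (y q).den then min (ψ q) (1 / 2) else 0 := by
        intro v _
        by_cases h : (y q).den = v
        · rw [if_pos ⟨hq, h⟩, if_pos h.symm]
        · rw [if_neg (fun h' => h h'.2), if_neg (fun h' => h h'.symm)]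
      rw [sum_congr rfl this, sum_ite_eq' V.divisors, if_pos]
      exact Nat.mem_divisors.2 ⟨hy q, hV.ne'⟩
    · rw [if_neg hq]
      exact sum_eq_zero fun v _ => if_neg (fun h => hq h.1)
  have hvpos : 0 < v := Nat.pos_of_mem_divisors hvV
  refine limsup_of_tails _ fun Q0 => ?_
  set u : ℕ → ℤ := fun q => (y q).num with hu
  have hmain := main_rat v hvpos u (fun q => min (ψ q) (1 / 2) * (if (y q).den = v then 1 else 0))
    (c / 2) (by positivity)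
    (fun q : ℕ => c / 2 * (q : ℝ) ≤ (Nat.totient q : ℝ) ∧ (y q).den = v) (fun q hq => ⟨?_, hq.1⟩)
    (fun q => mul_nonneg (le_min (hψ q) (by norm_num)) (by split_ifs <;> norm_num))
    (fun q => ?_) ?_ (max Q0 1)
  · refine measure_mono_null (Set.sdiff_subset_sdiff_right ?_) hmain
    rintro x ⟨q, hq, p, hp, hx⟩
    have hq1 : 0 < q := lt_of_lt_of_le one_pos ((le_max_right _ _).trans hq)
    by_cases hd : (y q).den = v
    · rw [if_pos hd, mul_one] at hx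
      refine ⟨q, (le_max_left _ _).trans hq, p, adm_gcd v u q hq1 p hp, ?_⟩
      have e : (y q : ℝ) = (u q : ℝ) / v := by
        rw [hu, ← hd]
        exact_mod_cast (Rat.num_div_den (y q)).symm
      rw [e]
      exact hx.trans_le (min_le_left _ _)
    · rw [if_neg hd, mul_zero] at hx
      exact absurd hx (not_lt.2 (abs_nonneg _))
  · rw [← hq.2]
    have := (y q).reduced
    simpa [Int.gcd, hu] using this
  · have h1 : min (ψ q) (1 / 2) ≤ 1 / 2 := min_le_right _ _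
    have h2 : 0 ≤ min (ψ q) (1 / 2) := le_min (hψ q) (by norm_num)
    split_ifs
    · linarith
    · linarith
  · intro hs
    apply hv
    refine hs.congr fun q => ?_
    by_cases h : c / 2 * (q : ℝ) ≤ (Nat.totient q : ℝ) ∧ (y q).den = v
    · rw [if_pos h, if_pos h, if_pos h.2, mul_one]
    · rw [if_neg h, if_neg h]

theorem thm_real (y ψ : ℕ → ℝ) (hψ : ∀ q, 0 ≤ ψ q) (hbd : ∃ B : ℝ, ∀ q, ψ q ≤ B)
    (hdiv : ¬ Summable (fun q : ℕ => (Nat.totient q : ℝ) * ψ q / (q : ℝ)))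
    (hcomp : ∃ c C : ℝ, 0 < c ∧ ∃ᶠ Q : ℕ in atTop, c * (∑ q ∈ Icc 1 Q, ψ q) ≤
        ∑ q ∈ Icc 1 Q, (Nat.totient q : ℝ) * ψ q / (q : ℝ) ∧
      ∑ q ∈ Icc 1 Q, ∑ d ∈ q.divisors, min (ψ q) (1 / (d : ℝ)) ≤
        C * (∑ q ∈ Icc 1 Q, (Nat.totient q : ℝ) * ψ q / (q : ℝ)) ^ 2) :
    volume {x : ℝ | x ∈ Set.Icc (0 : ℝ) 1 ∧ ∃ᶠ q : ℕ in atTop, ∃ p : ℤ, Int.gcd p (q : ℤ) = 1 ∧
      |(q : ℝ) * x - (p : ℝ) - y q| < ψ q} = 1 := by
  classical
  obtain ⟨c, C, hc, hcomp⟩ := hcomp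
  obtain ⟨B0, hB0⟩ := hbd
  set B := max B0 1 with hB
  have hB1 : 1 ≤ B := le_max_right _ _
  have hBpos : 0 < 2 * B := by linarith
  have hC' : ∃ C' : ℝ, 0 ≤ C' ∧ C ≤ C' := ⟨max C 0, le_max_right _ _, le_max_left _ _⟩
  obtain ⟨C', hC'0, hCC'⟩ := hC'
  set ψ' : ℕ → ℝ := fun q => ψ q / (2 * B) with hψ'
  refine limsup_of_tails _ fun Q0 => ?_
  have hle : ∀ q, ψ' q ≤ ψ q := fun q => by
    rw [hψ']
    exact div_le_self (hψ q) (by linarith)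
  have hmain := main_real' y ψ' (c / 2) (C' * (2 * B) ^ 2 * 16) (by positivity) (by positivity)
    (fun q => div_nonneg (hψ q) hBpos.le) (fun q => ?_) ?_ (max Q0 1)
  · refine measure_mono_null (Set.sdiff_subset_sdiff_right ?_) hmain
    rintro x ⟨q, hq, p, hp, hx⟩
    have hq1 : 0 < q := lt_of_lt_of_le one_pos ((le_max_right _ _).trans hq)
    exact ⟨q, (le_max_left _ _).trans hq, p, cop_gcd q hq1 p hp, hx.trans_le (hle q)⟩
  · rw [hψ']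
    simp only
    rw [div_le_iff₀ hBpos]
    have : ψ q ≤ B := (hB0 q).trans (le_max_left _ _)
    linarith
  · intro K
    set G : ℕ → ℝ := fun Q => ∑ q ∈ Icc 1 Q, (Nat.totient q : ℝ) * ψ q / (q : ℝ) with hG
    obtain ⟨Q, ⟨hQ1, hQ2⟩, hQ3⟩ := (hcomp.and_eventually (partial_unbounded ψ hψ hdiv
      (4 * (2 * B) + 4 * ∑ q ∈ range K, ψ q))).exists
    have hthin := thin_part ψ hψ c Q hQ1
    set W := (Icc 1 Q).filter (fun q : ℕ => c / 2 * (q : ℝ) ≤ (Nat.totient q : ℝ) ∧ K ≤ q) with hW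
    have hsW : G Q / 4 ≤ ∑ q ∈ W, ψ q := by
      have h1 : ∑ q ∈ (Icc 1 Q).filter (fun q : ℕ => c / 2 * (q : ℝ) ≤ (Nat.totient q : ℝ)), ψ q ≤
          ∑ q ∈ W, ψ q + ∑ q ∈ range K, ψ q := by
        rw [← sum_filter_add_sum_filter_not ((Icc 1 Q).filter (fun q : ℕ => c / 2 * (q : ℝ) ≤
          (Nat.totient q : ℝ))) (fun q : ℕ => K ≤ q), filter_filter]
        refine add_le_add le_rfl ?_
        refine sum_le_sum_of_subset_of_nonneg ?_ (fun q _ _ => hψ q)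
        intro q hq
        rw [mem_filter, not_le] at hq
        exact mem_range.2 hq.2
      have h2 : 0 ≤ ∑ q ∈ range K, ψ q := sum_nonneg fun q _ => hψ q
      have h3 : G Q / 2 ≤ ∑ q ∈ W, ψ q + ∑ q ∈ range K, ψ q := hthin.trans h1
      have h4 : 4 * (2 * B) + 4 * ∑ q ∈ range K, ψ q ≤ G Q := hQ3
      linarith
    have hGpos : 0 ≤ G Q := by
      have h2 : 0 ≤ ∑ q ∈ range K, ψ q := sum_nonneg fun q _ => hψ q
      have h4 : 4 * (2 * B) + 4 * ∑ q ∈ range K, ψ q ≤ G Q := hQ3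
      linarith
    refine ⟨W, ?_, ?_, ?_⟩
    · intro q hq
      rw [hW, mem_filter] at hq
      exact ⟨hq.2.2, hq.2.1⟩
    · rw [hψ', ← sum_div, le_div_iff₀ hBpos]
      have h2 : 0 ≤ ∑ q ∈ range K, ψ q := sum_nonneg fun q _ => hψ q
      have h4 : 4 * (2 * B) + 4 * ∑ q ∈ range K, ψ q ≤ G Q := hQ3
      linarith
    · have h5 : ∑ q ∈ W, ∑ d ∈ q.divisors, min (ψ' q) (1 / (d : ℝ)) ≤ C' * G Q ^ 2 := by
        calc ∑ q ∈ W, ∑ d ∈ q.divisors, min (ψ' q) (1 / (d : ℝ))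
            ≤ ∑ q ∈ W, ∑ d ∈ q.divisors, min (ψ q) (1 / (d : ℝ)) :=
              sum_le_sum fun q _ => sum_le_sum fun d _ => min_le_min_right _ (hle q)
          _ ≤ ∑ q ∈ Icc 1 Q, ∑ d ∈ q.divisors, min (ψ q) (1 / (d : ℝ)) :=
              sum_le_sum_of_subset_of_nonneg (filter_subset _ _)
                (fun q _ _ => sum_nonneg fun d _ => le_min (hψ q) (by positivity))
          _ ≤ C * G Q ^ 2 := hQ2
          _ ≤ C' * G Q ^ 2 := mul_le_mul_of_nonneg_right hCC' (sq_nonneg _)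
      have h6 : ∑ q ∈ W, ψ' q = (∑ q ∈ W, ψ q) / (2 * B) := by rw [hψ', sum_div]
      rw [h6]
      have h7 : C' * (2 * B) ^ 2 * 16 * ((∑ q ∈ W, ψ q) / (2 * B)) ^ 2 =
          C' * (4 * ∑ q ∈ W, ψ q) ^ 2 := by field_simp; ring
      rw [h7]
      refine h5.trans (mul_le_mul_of_nonneg_left ?_ hC'0)
      exact pow_le_pow_left₀ hGpos (by linarith) 2

end Pool.Agent.X152.DS
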