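import Mathlib
import Pool.Agent.X152.DS.Final

set_option autoImplicit false

namespace Pool.Agent.X152.DS

open MeasureTheory Finset Filter

/-- off-diagonal, arbitrary real shifts, gcd form -/
theorem off_bound_gcd (y ψ : ℕ → ℝ) (A : ℕ → ℤ → Prop) (q r : ℕ) (hq : 0 < q)
    (hr : 0 < r) (hψq : 0 ≤ ψ q) (hψr : 0 ≤ ψ r) :
    min (ψ q / q) (ψ r / r) * (ZZ y ψ A q r : ℝ) ≤
      6 * (ψ q * ψ r) + 3 * ((Nat.gcd q r : ℝ) * min (ψ q / q) (ψ r / r)) := by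
  classical
  have hqR : (0 : ℝ) < q := by exact_mod_cast hq
  have hrR : (0 : ℝ) < r := by exact_mod_cast hr
  set Z := ({z ∈ num (y q) q ×ˢ num (y r) r | A q z.1 ∧ A r z.2 ∧
          |((z.1 : ℝ) + y q) / q - ((z.2 : ℝ) + y r) / r| < ψ q / q + ψ r / r}) with hZ
  have hZZ : (ZZ y ψ A q r : ℝ) = #Z := by
    unfold ZZ
    rfl
  rw [hZZ]
  have hb1 : (#Z : ℝ) ≤ 2 * ((ψ q / q + ψ r / r) * (q * r)) + Nat.gcd q r := by
    refine close_pairs q r hq hr (y q) (y r) ⌈-y q⌉ ⌈-y r⌉ _ (by positivity) Z ?_ ?_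
    · intro z hz
      rw [hZ, mem_filter] at hz
      exact hz.1
    · intro z hz
      rw [hZ, mem_filter] at hz
      exact hz.2.2.2
  have hmin0 : 0 ≤ min (ψ q / q) (ψ r / r) := le_min (by positivity) (by positivity)
  have hgR : (0 : ℝ) ≤ Nat.gcd q r := by positivity
  have h3 := min_mul_sum_le (ψ q / q) (ψ r / r) (by positivity) (by positivity)
  have h4 : 0 ≤ (Nat.gcd q r : ℝ) * min (ψ q / q) (ψ r / r) := mul_nonneg hgR hmin0
  have h5 : 0 ≤ ψ q * ψ r := mul_nonneg hψq hψr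
  have h6 : min (ψ q / q) (ψ r / r) * ((ψ q / q + ψ r / r) * (q * r)) ≤ 2 * (ψ q * ψ r) := by
    calc min (ψ q / q) (ψ r / r) * ((ψ q / q + ψ r / r) * (q * r))
        = (min (ψ q / q) (ψ r / r) * (ψ q / q + ψ r / r)) * (q * r) := by ring
      _ ≤ (2 * (ψ q / q * (ψ r / r))) * (q * r) :=
          mul_le_mul_of_nonneg_right h3 (by positivity)
      _ = 2 * (ψ q * ψ r) := by field_simp
  have h7 := mul_le_mul_of_nonneg_left hb1 hmin0
  nlinarith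

open scoped Classical in
theorem main_real_gcd (y ψ : ℕ → ℝ) (c0 C : ℝ) (hc0 : 0 < c0) (hC : 0 ≤ C)
    (hψ0 : ∀ q, 0 ≤ ψ q) (hψ1 : ∀ q, ψ q ≤ 1 / 2)
    (hwin : ∀ K : ℕ, ∃ W : Finset ℕ, (∀ q ∈ W, K ≤ q ∧ c0 * q ≤ (Nat.totient q : ℝ)) ∧
      1 ≤ ∑ q ∈ W, ψ q ∧
      ∑ r ∈ W, ∑ q ∈ W.filter (fun q => q < r), (Nat.gcd q r : ℝ) * min (ψ q / q) (ψ r / r) ≤
        C * (∑ q ∈ W, ψ q) ^ 2) (Q0 : ℕ) :
    volume (Set.Ico (0 : ℝ) 1 \
      {x : ℝ | ∃ q : ℕ, Q0 ≤ q ∧ ∃ p : ℤ, Cop q p ∧ |(q : ℝ) * x - p - y q| < ψ q}) = 0 := by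
  refine assembly y ψ Cop Q0 (c0 ^ 3 / 2) (13 + 6 * C) (by positivity) (by positivity) ?_
  intro N hN
  obtain ⟨Q1, hQ1⟩ := cell_count (fun _ => {0}) c0 hc0 N hN
  obtain ⟨W, hWm', hsum, hdivs⟩ := hwin (max (max Q0 N) (max Q1 1))
  have hWm : ∀ q ∈ W, Q0 ≤ q ∧ N ≤ q ∧ Q1 ≤ q ∧ 0 < q ∧ c0 * q ≤ (Nat.totient q : ℝ) := by
    intro q hq
    obtain ⟨h1, h2⟩ := hWm' q hq
    simp only [max_le_iff] at h1
    exact ⟨h1.1.1, h1.1.2, h1.2.1, h1.2.2, h2⟩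
  refine ⟨W, by linarith, ?_, ?_, ?_⟩
  · intro q hq
    exact ⟨(hWm q hq).1, (hWm q hq).2.1, hψ0 q, hψ1 q⟩
  · intro q hq i hi
    obtain ⟨-, -, h3, h4, h5⟩ := hWm q hq
    have := hQ1 q (fun _ => {0}) h3 h5
      (fun l hl => zero_card l (Nat.prime_of_mem_primeFactors hl)) (y q) i hi
    refine this.trans (Nat.cast_le.2 (card_le_card ?_))
    intro p hp
    rw [mem_filter] at hp ⊢
    exact hp
  · have hds := double_sum W (fun q r => min (ψ q / q) (ψ r / r) * (ZZ y ψ Cop q r : ℝ))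
      (fun q r => 3 * ((Nat.gcd q r : ℝ) * min (ψ q / q) (ψ r / r))) ψ
      (fun r => 3 * ∑ q ∈ W.filter (fun q => q < r), (Nat.gcd q r : ℝ) * min (ψ q / q) (ψ r / r))
      6 (by positivity) (fun q _ => hψ0 q) ?_ ?_ ?_ ?_
    · refine le_trans (le_of_eq ?_) (hds.trans ?_)
      · refine sum_congr rfl fun q _ => sum_congr rfl fun r _ => ?_
        unfold ZZ
        rfl
      · rw [← mul_sum]
        nlinarith
    · intro q r
      rw [min_comm, ZZ_symm]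
    · intro q hq
      exact diag_bound _ ψ _ q (hWm q hq).2.2.2.1 (hψ0 q) (hψ1 q)
    · intro q hq r hr hqr
      exact off_bound_gcd y ψ Cop q r (hWm q hq).2.2.2.1 (hWm r hr).2.2.2.1 (hψ0 q) (hψ0 r)
    · intro r hr
      rw [← mul_sum]

theorem thm_gcd (y ψ : ℕ → ℝ) (hψ : ∀ q, 0 ≤ ψ q) (hbd : ∃ B : ℝ, ∀ q, ψ q ≤ B)
    (hdiv : ¬ Summable (fun q : ℕ => (Nat.totient q : ℝ) * ψ q / (q : ℝ)))
    (hcomp : ∃ c C : ℝ, 0 < c ∧ ∃ᶠ Q : ℕ in atTop, c * (∑ q ∈ Icc 1 Q, ψ q) ≤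
        ∑ q ∈ Icc 1 Q, (Nat.totient q : ℝ) * ψ q / (q : ℝ) ∧
      ∑ r ∈ (Icc 1 Q).filter (fun r : ℕ => c / 2 * (r : ℝ) ≤ (Nat.totient r : ℝ)),
        ∑ q ∈ (Icc 1 Q).filter (fun q : ℕ => c / 2 * (q : ℝ) ≤ (Nat.totient q : ℝ) ∧ q < r),
          (Nat.gcd q r : ℝ) * min (ψ q / q) (ψ r / r) ≤
        C * (∑ q ∈ Icc 1 Q, (Nat.totient q : ℝ) * ψ q / (q : ℝ)) ^ 2) :
    volume {x : ℝ | x ∈ Set.Icc (0 : ℝ) 1 ∧ ∃ᶠ q : ℕ in atTop, ∃ p : ℤ, Int.gcd p (q : ℤ) = 1 ∧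
      |(q : ℝ) * x - (p : ℝ) - y q| < ψ q} = 1 := by
  classical
  obtain ⟨c, C, hc, hcomp⟩ := hcomp
  obtain ⟨B0, hB0⟩ := hbd
  set B := max B0 1 with hB
  have hB1 : 1 ≤ B := le_max_right _ _
  have hBpos : 0 < 2 * B := by linarith
  have hC' : ∃ C' : ℝ, 0 ≤ C' ∧ C ≤ C' := ⟨max C 0, le_max_right _ _, le_max_left _ _⟩
  obtain ⟨C', hC'0, hCC'⟩ := hC'
  set ψ' : ℕ → ℝ := fun q => ψ q / (2 * B) with hψ'
  refine limsup_of_tails _ fun Q0 => ?_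
  have hle : ∀ q, ψ' q ≤ ψ q := fun q => by
    rw [hψ']
    exact div_le_self (hψ q) (by linarith)
  have hψ'0 : ∀ q, 0 ≤ ψ' q := fun q => div_nonneg (hψ q) hBpos.le
  have hmain := main_real_gcd y ψ' (c / 2) (C' * (2 * B) ^ 2 * 16) (by positivity) (by positivity)
    hψ'0 (fun q => ?_) ?_ (max Q0 1)
  · refine measure_mono_null (Set.sdiff_subset_sdiff_right ?_) hmain
    rintro x ⟨q, hq, p, hp, hx⟩
    have hq1 : 0 < q := lt_of_lt_of_le one_pos ((le_max_right _ _).trans hq)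
    exact ⟨q, (le_max_left _ _).trans hq, p, cop_gcd q hq1 p hp, hx.trans_le (hle q)⟩
  · rw [hψ']
    simp only
    rw [div_le_iff₀ hBpos]
    have : ψ q ≤ B := (hB0 q).trans (le_max_left _ _)
    linarith
  · intro K
    set G : ℕ → ℝ := fun Q => ∑ q ∈ Icc 1 Q, (Nat.totient q : ℝ) * ψ q / (q : ℝ) with hG
    obtain ⟨Q, ⟨hQ1, hQ2⟩, hQ3⟩ := (hcomp.and_eventually (partial_unbounded ψ hψ hdiv
      (4 * (2 * B) + 4 * ∑ q ∈ range K, ψ q))).exists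
    have hthin := thin_part ψ hψ c Q hQ1
    set W := (Icc 1 Q).filter (fun q : ℕ => c / 2 * (q : ℝ) ≤ (Nat.totient q : ℝ) ∧ K ≤ q) with hW
    have hsW : G Q / 4 ≤ ∑ q ∈ W, ψ q := by
      have h1 : ∑ q ∈ (Icc 1 Q).filter (fun q : ℕ => c / 2 * (q : ℝ) ≤ (Nat.totient q : ℝ)), ψ q ≤
          ∑ q ∈ W, ψ q + ∑ q ∈ range K, ψ q := by
        rw [← sum_filter_add_sum_filter_not ((Icc 1 Q).filter (fun q : ℕ => c / 2 * (q : ℝ) ≤
          (Nat.totient q : ℝ))) (fun q : ℕ => K ≤ q), filter_filter]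
        refine add_le_add le_rfl ?_
        refine sum_le_sum_of_subset_of_nonneg ?_ (fun q _ _ => hψ q)
        intro q hq
        rw [mem_filter, not_le] at hq
        exact mem_range.2 hq.2
      have h2 : 0 ≤ ∑ q ∈ range K, ψ q := sum_nonneg fun q _ => hψ q
      have h3 : G Q / 2 ≤ ∑ q ∈ W, ψ q + ∑ q ∈ range K, ψ q := hthin.trans h1
      have h4 : 4 * (2 * B) + 4 * ∑ q ∈ range K, ψ q ≤ G Q := hQ3
      linarith
    have hGpos : 0 ≤ G Q := by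
      have h2 : 0 ≤ ∑ q ∈ range K, ψ q := sum_nonneg fun q _ => hψ q
      have h4 : 4 * (2 * B) + 4 * ∑ q ∈ range K, ψ q ≤ G Q := hQ3
      linarith
    refine ⟨W, ?_, ?_, ?_⟩
    · intro q hq
      rw [hW, mem_filter] at hq
      exact ⟨hq.2.2, hq.2.1⟩
    · rw [hψ', ← sum_div, le_div_iff₀ hBpos]
      have h2 : 0 ≤ ∑ q ∈ range K, ψ q := sum_nonneg fun q _ => hψ q
      have h4 : 4 * (2 * B) + 4 * ∑ q ∈ range K, ψ q ≤ G Q := hQ3
      linarith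
    · have hterm0 : ∀ q r : ℕ, 0 ≤ (Nat.gcd q r : ℝ) * min (ψ q / q) (ψ r / r) := fun q r =>
        mul_nonneg (Nat.cast_nonneg _) (le_min (div_nonneg (hψ q) (Nat.cast_nonneg _))
          (div_nonneg (hψ r) (Nat.cast_nonneg _)))
      have h5 : ∑ r ∈ W, ∑ q ∈ W.filter (fun q => q < r),
          (Nat.gcd q r : ℝ) * min (ψ' q / q) (ψ' r / r) ≤ C' * G Q ^ 2 := by
        calc ∑ r ∈ W, ∑ q ∈ W.filter (fun q => q < r), (Nat.gcd q r : ℝ) * min (ψ' q / q) (ψ' r / r)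
            ≤ ∑ r ∈ W, ∑ q ∈ W.filter (fun q => q < r),
                (Nat.gcd q r : ℝ) * min (ψ q / q) (ψ r / r) := by
              refine sum_le_sum fun r _ => sum_le_sum fun q _ => ?_
              refine mul_le_mul_of_nonneg_left ?_ (Nat.cast_nonneg _)
              exact min_le_min (div_le_div_of_nonneg_right (hle q) (Nat.cast_nonneg _))
                (div_le_div_of_nonneg_right (hle r) (Nat.cast_nonneg _))
          _ ≤ ∑ r ∈ W, ∑ q ∈ (Icc 1 Q).filter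
                (fun q : ℕ => c / 2 * (q : ℝ) ≤ (Nat.totient q : ℝ) ∧ q < r),
                (Nat.gcd q r : ℝ) * min (ψ q / q) (ψ r / r) := by
              refine sum_le_sum fun r _ => ?_
              refine sum_le_sum_of_subset_of_nonneg ?_ (fun q _ _ => hterm0 q r)
              intro q hq
              rw [hW, mem_filter, mem_filter] at hq
              rw [mem_filter]
              exact ⟨hq.1.1, hq.1.2.1, hq.2⟩
          _ ≤ ∑ r ∈ (Icc 1 Q).filter (fun r : ℕ => c / 2 * (r : ℝ) ≤ (Nat.totient r : ℝ)),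
                ∑ q ∈ (Icc 1 Q).filter
                (fun q : ℕ => c / 2 * (q : ℝ) ≤ (Nat.totient q : ℝ) ∧ q < r),
                (Nat.gcd q r : ℝ) * min (ψ q / q) (ψ r / r) := by
              refine sum_le_sum_of_subset_of_nonneg ?_
                (fun r _ _ => sum_nonneg fun q _ => hterm0 q r)
              intro q hq
              rw [hW, mem_filter] at hq
              rw [mem_filter]
              exact ⟨hq.1, hq.2.1⟩
          _ ≤ C * G Q ^ 2 := hQ2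
          _ ≤ C' * G Q ^ 2 := mul_le_mul_of_nonneg_right hCC' (sq_nonneg _)
      have h6 : ∑ q ∈ W, ψ' q = (∑ q ∈ W, ψ q) / (2 * B) := by rw [hψ', sum_div]
      rw [h6]
      have h7 : C' * (2 * B) ^ 2 * 16 * ((∑ q ∈ W, ψ q) / (2 * B)) ^ 2 =
          C' * (4 * ∑ q ∈ W, ψ q) ^ 2 := by field_simp; ring
      rw [h7]
      refine h5.trans (mul_le_mul_of_nonneg_left ?_ hC'0)
      exact pow_le_pow_left₀ hGpos (by linarith) 2

end Pool.Agent.X152.DS
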