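import Mathlib
import Pool.Agent.X152.DS.Gcd

set_option autoImplicit false

namespace Pool.Agent.X152.DS

open MeasureTheory Finset Filter

theorem sigma_totient_le (n : ℕ) (hn : 0 < n) :
    ArithmeticFunction.sigma 1 n * Nat.totient n ≤ n * n := by
  induction n using Nat.recOnPosPrimePosCoprime with
  | zero => omega
  | one => simp
  | prime_pow p k hp hk =>
    obtain ⟨k, rfl⟩ : ∃ j, k = j + 1 := ⟨k - 1, by omega⟩
    rw [ArithmeticFunction.sigma_one_apply_prime_pow hp, Nat.totient_prime_pow_succ hp]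
    obtain ⟨x, rfl⟩ : ∃ x, p = x + 1 := ⟨p - 1, by have := hp.pos; omega⟩
    have h := geom_sum_mul_add x (k + 1 + 1)
    rw [Nat.add_sub_cancel]
    calc (∑ i ∈ range (k + 1 + 1), (x + 1) ^ i) * ((x + 1) ^ k * x)
        = ((∑ i ∈ range (k + 1 + 1), (x + 1) ^ i) * x) * (x + 1) ^ k := by ring
      _ ≤ (x + 1) ^ (k + 1 + 1) * (x + 1) ^ k := by
          refine Nat.mul_le_mul_right _ ?_
          omega
      _ = (x + 1) ^ (k + 1) * (x + 1) ^ (k + 1) := by ring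
  | coprime a b ha hb hab iha ihb =>
    rw [ArithmeticFunction.isMultiplicative_sigma.map_mul_of_coprime hab, Nat.totient_mul hab]
    calc ArithmeticFunction.sigma 1 a * ArithmeticFunction.sigma 1 b *
          (Nat.totient a * Nat.totient b)
        = (ArithmeticFunction.sigma 1 a * Nat.totient a) *
          (ArithmeticFunction.sigma 1 b * Nat.totient b) := by ring
      _ ≤ (a * a) * (b * b) := Nat.mul_le_mul (iha (by omega)) (ihb (by omega))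
      _ = a * b * (a * b) := by ring

theorem sum_inv_divisors_le (c0 : ℝ) (hc0 : 0 < c0) (r : ℕ) (hr : 0 < r)
    (h : c0 * (r : ℝ) ≤ (Nat.totient r : ℝ)) :
    ∑ d ∈ r.divisors, 1 / (d : ℝ) ≤ 1 / c0 := by
  have hrR : (0 : ℝ) < r := by exact_mod_cast hr
  have h1 : ∑ d ∈ r.divisors, 1 / (d : ℝ) = (ArithmeticFunction.sigma 1 r : ℝ) / r := by
    rw [ArithmeticFunction.sigma_one_apply]
    rw [← Nat.sum_div_divisors r (fun d => 1 / (d : ℝ)), Nat.cast_sum, sum_div]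
    refine sum_congr rfl fun g hg => ?_
    have hgpos : 0 < g := Nat.pos_of_mem_divisors hg
    have hgR : (0 : ℝ) < g := by exact_mod_cast hgpos
    have hgr : g ∣ r := Nat.dvd_of_mem_divisors hg
    rw [Nat.cast_div hgr hgR.ne']
    field_simp
  have h2 : (ArithmeticFunction.sigma 1 r : ℝ) * Nat.totient r ≤ r * r := by
    exact_mod_cast sigma_totient_le r hr
  rw [h1, div_le_div_iff₀ hrR hc0, one_mul]
  have h3 : (ArithmeticFunction.sigma 1 r : ℝ) * (c0 * r) ≤ r * r :=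
    (mul_le_mul_of_nonneg_left h (Nat.cast_nonneg _)).trans h2
  have h4 : ((ArithmeticFunction.sigma 1 r : ℝ) * c0) * r ≤ r * r := by linarith
  exact le_of_mul_le_mul_right h4 hrR

theorem gcd_term_le (ψ : ℕ → ℝ) (hψ : ∀ q, 0 ≤ ψ q) (q r : ℕ) (hq : 0 < q) (hr : 0 < r) :
    (Nat.gcd q r : ℝ) * min (ψ q / q) (ψ r / r) ≤
      ψ q * ψ r + ψ r / r * (if ψ r * q < Nat.gcd q r then (Nat.gcd q r : ℝ) else 0) := by
  have hqR : (0 : ℝ) < q := by exact_mod_cast hq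
  have hrR : (0 : ℝ) < r := by exact_mod_cast hr
  have hgR : (0 : ℝ) ≤ Nat.gcd q r := by positivity
  have hψq := hψ q
  have hψr := hψ r
  split_ifs with h
  · have h1 : (Nat.gcd q r : ℝ) * min (ψ q / q) (ψ r / r) ≤ (Nat.gcd q r : ℝ) * (ψ r / r) :=
      mul_le_mul_of_nonneg_left (min_le_right _ _) hgR
    have h2 : 0 ≤ ψ q * ψ r := mul_nonneg hψq hψr
    linarith
  · rw [not_lt] at h
    have h0 : (0 : ℝ) ≤ ψ q / q := by positivity
    calc (Nat.gcd q r : ℝ) * min (ψ q / q) (ψ r / r)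
        ≤ (Nat.gcd q r : ℝ) * (ψ q / q) := mul_le_mul_of_nonneg_left (min_le_left _ _) hgR
      _ ≤ (ψ r * q) * (ψ q / q) := mul_le_mul_of_nonneg_right h h0
      _ = ψ q * ψ r + ψ r / r * 0 := by field_simp; ring

/-- full measure when the support of `ψ` up to `Q` has at most `C (∑ φψ/q)²` elements for
infinitely many `Q` (together with comparability at these `Q`) -/
theorem thm_card (y ψ : ℕ → ℝ) (hψ : ∀ q, 0 ≤ ψ q) (hbd : ∃ B : ℝ, ∀ q, ψ q ≤ B)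
    (hdiv : ¬ Summable (fun q : ℕ => (Nat.totient q : ℝ) * ψ q / (q : ℝ)))
    (hcomp : ∃ c C : ℝ, 0 < c ∧ ∃ᶠ Q : ℕ in atTop, c * (∑ q ∈ Icc 1 Q, ψ q) ≤
        ∑ q ∈ Icc 1 Q, (Nat.totient q : ℝ) * ψ q / (q : ℝ) ∧
      (#{q ∈ Icc 1 Q | 0 < ψ q} : ℝ) ≤
        C * (∑ q ∈ Icc 1 Q, (Nat.totient q : ℝ) * ψ q / (q : ℝ)) ^ 2) :
    volume {x : ℝ | x ∈ Set.Icc (0 : ℝ) 1 ∧ ∃ᶠ q : ℕ in atTop, ∃ p : ℤ, Int.gcd p (q : ℤ) = 1 ∧
      |(q : ℝ) * x - (p : ℝ) - y q| < ψ q} = 1 := by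
  classical
  obtain ⟨c, C, hc, hcomp⟩ := hcomp
  refine thm_gcd y ψ hψ hbd hdiv ⟨c, 1 / c ^ 2 + 2 / c * C, hc, ?_⟩
  refine hcomp.mono fun Q hQ => ⟨hQ.1, ?_⟩
  obtain ⟨hQ1, hQ2⟩ := hQ
  set G := ∑ q ∈ Icc 1 Q, (Nat.totient q : ℝ) * ψ q / (q : ℝ) with hG
  set S := ∑ q ∈ Icc 1 Q, ψ q with hS
  have hS0 : 0 ≤ S := sum_nonneg fun q _ => hψ q
  set T := (Icc 1 Q).filter (fun r : ℕ => c / 2 * (r : ℝ) ≤ (Nat.totient r : ℝ)) with hT
  have hrow : ∀ r ∈ T, ∑ q ∈ (Icc 1 Q).filter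
      (fun q : ℕ => c / 2 * (q : ℝ) ≤ (Nat.totient q : ℝ) ∧ q < r),
      (Nat.gcd q r : ℝ) * min (ψ q / q) (ψ r / r) ≤ S * ψ r + (if 0 < ψ r then 2 / c else 0) := by
    intro r hr
    rw [hT, mem_filter, mem_Icc] at hr
    have hr0 : 0 < r := hr.1.1
    set W := (Icc 1 Q).filter (fun q : ℕ => c / 2 * (q : ℝ) ≤ (Nat.totient q : ℝ) ∧ q < r) with hW
    have hWm : ∀ q ∈ W, 0 < q ∧ q < r := by
      intro q hq
      rw [hW, mem_filter, mem_Icc] at hq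
      exact ⟨hq.1.1, hq.2.2⟩
    have h1 : ∑ q ∈ W, (Nat.gcd q r : ℝ) * min (ψ q / q) (ψ r / r) ≤
        ∑ q ∈ W, ψ q * ψ r + ψ r / r * ∑ q ∈ W,
          (if ψ r * q < Nat.gcd q r then (Nat.gcd q r : ℝ) else 0) := by
      rw [mul_sum, ← sum_add_distrib]
      exact sum_le_sum fun q hq => gcd_term_le ψ hψ q r (hWm q hq).1 hr0
    have h2 := sum_gcd_le' r hr0 (ψ r) (hψ r) W hWm
    have h3 : ∑ q ∈ W, ψ q * ψ r ≤ S * ψ r := by
      rw [← sum_mul]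
      refine mul_le_mul_of_nonneg_right ?_ (hψ r)
      exact sum_le_sum_of_subset_of_nonneg (filter_subset _ _) (fun q _ _ => hψ q)
    have h4 : ∑ d ∈ r.divisors, min (ψ r) (1 / (d : ℝ)) ≤ if 0 < ψ r then 2 / c else 0 := by
      split_ifs with h5
      · calc ∑ d ∈ r.divisors, min (ψ r) (1 / (d : ℝ)) ≤ ∑ d ∈ r.divisors, 1 / (d : ℝ) :=
              sum_le_sum fun d _ => min_le_right _ _
          _ ≤ 1 / (c / 2) := sum_inv_divisors_le (c / 2) (by positivity) r hr0 hr.2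
          _ = 2 / c := by field_simp
      · have h6 : ψ r = 0 := le_antisymm (not_lt.1 h5) (hψ r)
        refine sum_nonpos fun d _ => ?_
        rw [h6]
        exact min_le_left _ _
    linarith
  calc ∑ r ∈ T, ∑ q ∈ (Icc 1 Q).filter (fun q : ℕ => c / 2 * (q : ℝ) ≤ (Nat.totient q : ℝ) ∧ q < r),
        (Nat.gcd q r : ℝ) * min (ψ q / q) (ψ r / r)
      ≤ ∑ r ∈ T, (S * ψ r + (if 0 < ψ r then 2 / c else 0)) := sum_le_sum hrow
    _ ≤ ∑ r ∈ Icc 1 Q, (S * ψ r + (if 0 < ψ r then 2 / c else 0)) := by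
        refine sum_le_sum_of_subset_of_nonneg (filter_subset _ _) (fun r _ _ => ?_)
        refine add_nonneg (mul_nonneg hS0 (hψ r)) ?_
        split_ifs <;> positivity
    _ = S ^ 2 + 2 / c * (#{q ∈ Icc 1 Q | 0 < ψ q} : ℝ) := by
        rw [sum_add_distrib, ← mul_sum, ← hS, ← sum_filter, sum_const, nsmul_eq_mul]
        ring
    _ ≤ (1 / c ^ 2 + 2 / c * C) * G ^ 2 := by
        have h1 : S ^ 2 ≤ 1 / c ^ 2 * G ^ 2 := by
          have h2 : (c * S) ^ 2 ≤ G ^ 2 := pow_le_pow_left₀ (by positivity) hQ1 2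
          rw [one_div, ← div_eq_inv_mul, le_div_iff₀ (by positivity)]
          nlinarith
        have h3 : 2 / c * (#{q ∈ Icc 1 Q | 0 < ψ q} : ℝ) ≤ 2 / c * (C * G ^ 2) :=
          mul_le_mul_of_nonneg_left hQ2 (by positivity)
        nlinarith

end Pool.Agent.X152.DS
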