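import Mathlib
import Pool.Agent.X152.DS.Card

set_option autoImplicit false

namespace Pool.Agent.X152.DS

open MeasureTheory Filter

theorem ae_of_measure_one (R : ℕ → ℝ → Prop) (hopen : ∀ q, IsOpen {x : ℝ | R q x})
    (hper : ∀ (k : ℤ) (q : ℕ) (x : ℝ), R q x → R q (x + k))
    (h : volume {x : ℝ | x ∈ Set.Icc (0 : ℝ) 1 ∧ ∃ᶠ q : ℕ in atTop, R q x} = 1) :
    ∀ᵐ x : ℝ, ∃ᶠ q : ℕ in atTop, R q x := by
  have hlim : {x : ℝ | ∃ᶠ q : ℕ in atTop, R q x} = ⋂ N : ℕ, ⋃ q : ℕ, ⋃ _ : N ≤ q, {x : ℝ | R q x} := by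
    ext x
    simp only [Set.mem_ofPred_eq, Set.mem_iInter, Set.mem_iUnion, frequently_atTop]
    constructor
    · intro h N
      obtain ⟨b, hb, hR⟩ := h N
      exact ⟨b, hb, hR⟩
    · intro h N
      obtain ⟨b, hb, hR⟩ := h N
      exact ⟨b, hb, hR⟩
  have hmeas : MeasurableSet {x : ℝ | ∃ᶠ q : ℕ in atTop, R q x} := by
    rw [hlim]
    exact MeasurableSet.iInter fun N => MeasurableSet.iUnion fun q => MeasurableSet.iUnion fun _ =>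
      (hopen q).measurableSet
  have hmeas2 : MeasurableSet {x : ℝ | x ∈ Set.Icc (0 : ℝ) 1 ∧ ∃ᶠ q : ℕ in atTop, R q x} :=
    measurableSet_Icc.inter hmeas
  have hnull : volume (Set.Icc (0 : ℝ) 1 \
      {x : ℝ | x ∈ Set.Icc (0 : ℝ) 1 ∧ ∃ᶠ q : ℕ in atTop, R q x}) = 0 := by
    rw [measure_sdiff (fun x hx => hx.1) hmeas2.nullMeasurableSet (by rw [h]; simp), h]
    simp
  rw [ae_iff]
  refine measure_mono_null (t := ⋃ k : ℤ, (fun x : ℝ => x + k) ⁻¹' (Set.Icc (0 : ℝ) 1 \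
      {x : ℝ | x ∈ Set.Icc (0 : ℝ) 1 ∧ ∃ᶠ q : ℕ in atTop, R q x})) ?_ ?_
  · intro x hx
    rw [Set.mem_iUnion]
    refine ⟨-⌊x⌋, ?_⟩
    rw [Set.mem_preimage]
    have e : x + ((-⌊x⌋ : ℤ) : ℝ) = Int.fract x := by
      push_cast
      rw [Int.fract]
      ring
    refine ⟨?_, ?_⟩
    · rw [e]
      exact ⟨Int.fract_nonneg x, (Int.fract_lt_one x).le⟩
    · rintro ⟨-, h2⟩
      apply hx
      refine h2.mono fun q hq => ?_
      have := hper ⌊x⌋ q _ hq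
      push_cast at this
      simpa using this
  · refine measure_iUnion_null fun k => ?_
    rw [measure_preimage_add_right]
    exact hnull

theorem ae_coprime (y ψ : ℕ → ℝ)
    (h : volume {x : ℝ | x ∈ Set.Icc (0 : ℝ) 1 ∧ ∃ᶠ q : ℕ in atTop, ∃ p : ℤ,
      Int.gcd p (q : ℤ) = 1 ∧ |(q : ℝ) * x - (p : ℝ) - y q| < ψ q} = 1) :
    ∀ᵐ x : ℝ, ∃ᶠ q : ℕ in atTop, ∃ p : ℤ, Int.gcd p (q : ℤ) = 1 ∧
      |(q : ℝ) * x - (p : ℝ) - y q| < ψ q := by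
  refine ae_of_measure_one (fun q x => ∃ p : ℤ, Int.gcd p (q : ℤ) = 1 ∧
      |(q : ℝ) * x - (p : ℝ) - y q| < ψ q) (fun q => ?_) ?_ h
  · have : {x : ℝ | ∃ p : ℤ, Int.gcd p (q : ℤ) = 1 ∧ |(q : ℝ) * x - (p : ℝ) - y q| < ψ q} =
        ⋃ p : ℤ, ⋃ _ : Int.gcd p (q : ℤ) = 1, {x : ℝ | |(q : ℝ) * x - (p : ℝ) - y q| < ψ q} := by
      ext x
      simp only [Set.mem_ofPred_eq, Set.mem_iUnion, exists_prop]
    rw [this]
    refine isOpen_iUnion fun p => isOpen_iUnion fun _ => ?_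
    exact isOpen_lt (by fun_prop) continuous_const
  · rintro k q x ⟨p, hp, hx⟩
    refine ⟨p + k * q, ?_, ?_⟩
    · rw [← hp]
      rw [mul_comm]; exact Int.gcd_add_mul_left_left _ _ _
    · push_cast
      have e : (q : ℝ) * (x + k) - ((p : ℝ) + k * q) - y q = (q : ℝ) * x - p - y q := by ring
      rw [e]
      exact hx

end Pool.Agent.X152.DS
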